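import Pool.Agent.Q57.GG.NefC
import Pool.Agent.Q57.GM.Nef

/-!
One boundary: the sections of one multiple which compute the asymptotic orders.
-/

set_option autoImplicit false
set_option linter.overlappingInstances false
set_option linter.unusedSectionVars false
set_option maxHeartbeats 1000000

open FF MvPolynomial Pool.Agent.W602.GT Pool.Agent.Q57.TP Pool.Agent.Q57.GM Pool.Agent.Q57.FG
open Pool.Agent.Q57.GG

namespace Pool.Agent.Q57.TC

variable {N : ℕ} {K : Type} [Field K] [Algebra ℂ K] {δ : Place ℂ K → ℚ}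

theorem bsec_asec {S : Finset K} {m j : ℕ} {η : (Fin N → Derivation ℂ K K) → K} :
    BSec N δ S m j η ↔ ASec N (fun _ : Fin 1 => δ) S (Finsupp.single 0 m) j η := by
  unfold BSec ASec
  simp only [Fin.sum_univ_one, Finsupp.single_eq_same]

theorem single_ne {m : ℕ} (hm : 1 ≤ m) : (Finsupp.single (0 : Fin 1) m) ≠ 0 := by
  intro h0
  have h1 := congrArg (fun f => f 0) h0
  simp only [Finsupp.single_eq_same, Finsupp.zero_apply] at h1
  omega

theorem g_single (g : Fin 1 →₀ ℕ) : g = Finsupp.single 0 (g 0) := by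
  refine Finsupp.ext fun i => ?_
  rw [Subsingleton.elim i 0, Finsupp.single_eq_same]

theorem psefR_of (h : BPsef N δ) : PsefR N (fun _ : Fin 1 => δ) fun _ => 1 := by
  obtain ⟨S, hS⟩ := h
  refine ⟨S, fun M => ?_⟩
  obtain ⟨j, hj, η, hη0, hη⟩ := hS M
  refine ⟨j, hj, Finsupp.single 0 (j * M), fun i => ?_, η, hη0, bsec_asec.1 hη⟩
  rw [Subsingleton.elim i 0, Finsupp.single_eq_same]
  push_cast
  rw [mul_one, sub_self, abs_zero]
  positivity

theorem nefR_of_b (h : BNef N δ) : NefR N (fun _ : Fin 1 => δ) fun _ => 1 := by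
  obtain ⟨S, hSS, hS⟩ := h
  refine ⟨S, hSS, fun M hM => ?_⟩
  obtain ⟨j, hj, hjP⟩ := hS M hM
  refine ⟨j, hj, fun P hP => ?_⟩
  obtain ⟨η, hη, D, hD, hηD, hle⟩ := hjP P hP
  refine ⟨Finsupp.single 0 (j * M), fun i => ?_, η, bsec_asec.1 hη, D, hD, hηD,
    fun s hs hs0 => ?_⟩
  · rw [Subsingleton.elim i 0, Finsupp.single_eq_same]
    push_cast
    rw [mul_one, sub_self, abs_zero]
    positivity
  · rw [Fin.sum_univ_one, Finsupp.single_eq_same]
    push_cast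
    exact hle s hs hs0

/-- **Finitely many sections of one multiple.** -/
theorem good_of_geo {w : (Fin N → Derivation ℂ K K) → K} {u : K} (hu : u ≠ 0)
    {D0 : Fin N → Derivation ℂ K K}
    (hpl : ∀ (m : ℕ) (η : (Fin N → Derivation ℂ K K) → K), IsPluri m η →
      ∀ D, η D * u ^ m = w D ^ m * η D0)
    {N0 : ℕ} {g : Fin N0 → Fin 1 →₀ ℕ} {ω : Fin N0 → (Fin N → Derivation ℂ K K) → K}
    (hg : ∀ b, g b ≠ 0 ∧ MSec N (fun _ => δ) (g b) (ω b)) (hω : ∀ b, ω b D0 ≠ 0)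
    (hord : ∀ (P : Place ℂ K) (S : Finset K), ∃ C1 : ℕ,
        ∀ (μ : Fin 1 →₀ ℕ) (j : ℕ) (η : (Fin N → Derivation ℂ K K) → K), μ ≠ 0 →
          ASec N (fun _ => δ) S μ j η → η D0 = 0 ∨
            ∃ e : Fin N0 → ℕ,
              (∀ i, |∑ b, (e b : ℤ) * g b i - μ i| ≤ C1 * (j + 1)) ∧
              ∑ b, (e b : ℤ) * P.ord (ω b D0) ≤ P.ord (η D0) + C1 * (j + 1))
    (hN0 : 0 < N0) : BGood N δ := by
  classical
  have hgpos : ∀ b, 1 ≤ g b 0 := by
    intro b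
    refine Nat.one_le_iff_ne_zero.2 fun h0 => (hg b).1 ?_
    rw [g_single (g b), h0, Finsupp.single_zero]
  obtain ⟨T, hT⟩ : ∃ T : ℕ, T = ∏ b, g b 0 := ⟨_, rfl⟩
  have hTpos : 0 < T := by
    rw [hT]
    exact Finset.prod_pos fun b _ => hgpos b
  have htb : ∀ b, ∃ t, T = t * g b 0 := by
    intro b
    have h1 : g b 0 ∣ T := by
      rw [hT]
      exact Finset.dvd_prod_of_mem _ (Finset.mem_univ b)
    obtain ⟨t, ht⟩ := h1
    exact ⟨t, by rw [ht, mul_comm]⟩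
  choose t ht using htb
  have hsec : ∀ b, BSec N δ {1} T 1 fun D => ω b D ^ t b := by
    intro b
    rw [bsec_asec]
    have h1 := msec_asec (j := 1) (msec_pow (hg b).2 (t b))
    have h2 : t b • g b = Finsupp.single 0 T := by
      rw [g_single (g b), Finsupp.smul_single, smul_eq_mul, ← ht]
    rw [← h2]
    exact h1
  refine ⟨T, N0, fun b D => ω b D ^ t b, hTpos, hsec, fun P _ => ?_⟩
  have : Nonempty (Fin N0) := ⟨⟨0, hN0⟩⟩
  obtain ⟨b0, -, hb0⟩ := Finset.exists_min_image (Finset.univ : Finset (Fin N0))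
    (fun b => (P.ord (ω b D0) : ℚ) / g b 0) Finset.univ_nonempty
  have hmin : ∀ b, (P.ord (ω b0 D0) : ℚ) * g b 0 ≤ P.ord (ω b D0) * g b0 0 := by
    intro b
    have h1 := hb0 b (Finset.mem_univ b)
    have h2 : (0 : ℚ) < g b0 0 := by exact_mod_cast hgpos b0
    have h3 : (0 : ℚ) < g b 0 := by exact_mod_cast hgpos b
    rw [div_le_div_iff₀ h2 h3] at h1
    exact h1
  refine ⟨b0, fun S => ?_⟩
  obtain ⟨C1, hC1⟩ := hord P S
  obtain ⟨a0, ha0⟩ : ∃ a0 : ℤ, a0 = P.ord (ω b0 D0 ^ t b0) := ⟨_, rfl⟩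
  have ha0' : a0 = t b0 * P.ord (ω b0 D0) := by rw [ha0, P.ord_pow]
  refine ⟨T * C1 + C1 * |a0|, fun m j η hm hη D => ?_⟩
  by_cases hηD : η D = 0
  · exact Or.inl hηD
  have h1 := hpl m η hη.1 D
  have h2 : w D ^ m * η D0 ≠ 0 := by
    rw [← h1]
    exact mul_ne_zero hηD (pow_ne_zero _ hu)
  have hηD0 : η D0 ≠ 0 := right_ne_zero_of_mul h2
  have hwD : w D ≠ 0 := fun h0 => left_ne_zero_of_mul h2 (by rw [h0, zero_pow (by omega)])
  have h3 := hpl T _ (hsec b0).1 D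
  have hω0 : ω b0 D0 ^ t b0 ≠ 0 := pow_ne_zero _ (hω b0)
  have hωD : ω b0 D ^ t b0 ≠ 0 := by
    intro h0
    rw [h0, zero_mul] at h3
    exact mul_ne_zero (pow_ne_zero _ hwD) hω0 h3.symm
  refine Or.inr ⟨hωD, ?_⟩
  have h4 := congrArg P.ord h1
  rw [P.ord_mul hηD (pow_ne_zero _ hu), P.ord_mul (pow_ne_zero _ hwD) hηD0, P.ord_pow,
    P.ord_pow] at h4
  have h5 := congrArg P.ord h3
  rw [P.ord_mul hωD (pow_ne_zero _ hu), P.ord_mul (pow_ne_zero _ hwD) hω0, P.ord_pow u T,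
    P.ord_pow (w D) T, ← ha0] at h5
  obtain ⟨ex, he1, he2⟩ := (hC1 (Finsupp.single 0 m) j η (single_ne hm)
    (bsec_asec.1 hη)).resolve_left hηD0
  have he1' := he1 0
  rw [Finsupp.single_eq_same] at he1'
  -- the comparison at `D0`
  have hkey : (m : ℤ) * a0 ≤ T * P.ord (η D0) + (T * C1 + C1 * |a0|) * (j + 1) := by
    -- `a0 * g b ≤ T * ord ω b`
    have h6 : ∀ b, a0 * g b 0 ≤ T * P.ord (ω b D0) := by
      intro b
      have h7 := hmin b
      have h8 : (P.ord (ω b0 D0) : ℤ) * g b 0 ≤ P.ord (ω b D0) * g b0 0 := by exact_mod_cast h7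
      rw [ha0']
      have h9 : (T : ℤ) = t b0 * g b0 0 := by exact_mod_cast ht b0
      rw [h9]
      have h10 : (0 : ℤ) ≤ t b0 := by positivity
      have h11 := mul_le_mul_of_nonneg_left h8 h10
      linarith
    have h7 : a0 * ∑ b, (ex b : ℤ) * g b 0 ≤ T * ∑ b, (ex b : ℤ) * P.ord (ω b D0) := by
      rw [Finset.mul_sum, Finset.mul_sum]
      refine Finset.sum_le_sum fun b _ => ?_
      have h8 : (0 : ℤ) ≤ ex b := by positivity
      have h9 := mul_le_mul_of_nonneg_left (h6 b) h8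
      linarith
    obtain ⟨E, hE⟩ : ∃ E : ℤ, E = ∑ b, (ex b : ℤ) * g b 0 := ⟨_, rfl⟩
    rw [← hE] at he1' h7
    have h8 : a0 * (m - E) ≤ |a0| * (C1 * (j + 1)) := by
      refine (le_abs_self _).trans ?_
      rw [abs_mul]
      refine mul_le_mul_of_nonneg_left ?_ (abs_nonneg _)
      rw [abs_sub_comm]
      exact he1'
    have h9 : (T : ℤ) * ∑ b, (ex b : ℤ) * P.ord (ω b D0) ≤
        T * (P.ord (η D0) + C1 * (j + 1)) := mul_le_mul_of_nonneg_left he2 (by positivity)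
    linarith
  obtain ⟨oD, hoD⟩ : ∃ oD, oD = P.ord (ω b0 D ^ t b0) := ⟨_, rfl⟩
  rw [← hoD] at h5
  dsimp only
  rw [← hoD]
  have h6 : (m : ℤ) * (oD + T * P.ord u) = m * (T * P.ord (w D) + a0) := by rw [h5]
  have h7 : (T : ℤ) * (P.ord (η D) + m * P.ord u) = T * (m * P.ord (w D) + P.ord (η D0)) := by
    rw [h4]
  linarith

/-- **The main theorem for one boundary.** -/
theorem one_of_geo {w : (Fin N → Derivation ℂ K K) → K} {u : K} (hu : u ≠ 0)
    {D0 : Fin N → Derivation ℂ K K}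
    (hpl : ∀ (m : ℕ) (η : (Fin N → Derivation ℂ K K) → K), IsPluri m η →
      ∀ D, η D * u ^ m = w D ^ m * η D0)
    (hP0 : ∃ P : Place ℂ K, Divisorial N P)
    {N0 : ℕ} {g : Fin N0 → Fin 1 →₀ ℕ} {ω : Fin N0 → (Fin N → Derivation ℂ K K) → K}
    (hg : ∀ b, g b ≠ 0 ∧ MSec N (fun _ => δ) (g b) (ω b)) (hω : ∀ b, ω b D0 ≠ 0)
    (hord : ∀ (P : Place ℂ K) (S : Finset K), ∃ C1 : ℕ,
        ∀ (μ : Fin 1 →₀ ℕ) (j : ℕ) (η : (Fin N → Derivation ℂ K K) → K), μ ≠ 0 →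
          ASec N (fun _ => δ) S μ j η → η D0 = 0 ∨
            ∃ e : Fin N0 → ℕ,
              (∀ i, |∑ b, (e b : ℤ) * g b i - μ i| ≤ C1 * (j + 1)) ∧
              ∑ b, (e b : ℤ) * P.ord (ω b D0) ≤ P.ord (η D0) + C1 * (j + 1))
    (hpsnef : BNef N δ → BPsef N δ) :
    (BPsef N δ → BGood N δ) ∧ (BNef N δ → BSemi N δ) := by
  have hdet : ∀ (m : ℕ) (η : (Fin N → Derivation ℂ K K) → K), IsPluri m η → η ≠ 0 →
      η D0 ≠ 0 := by
    intro m η hη h0 h1
    apply h0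
    funext D
    have h2 := hpl m η hη D
    rw [h1, mul_zero] at h2
    exact (mul_eq_zero.1 h2).resolve_right (pow_ne_zero _ hu)
  have h1 : BPsef N δ → BGood N δ := by
    intro hps
    refine good_of_geo hu hpl hg hω hord ?_
    obtain ⟨P0, -⟩ := hP0
    have h2 := (psefR_iff hg (P := P0) hω hdet (fun S => by
      obtain ⟨C1, hC1⟩ := hord P0 S
      exact ⟨C1, fun μ j η hμ hη => (hC1 μ j η hμ hη).imp id fun ⟨e, he, _⟩ => ⟨e, he⟩⟩)
      (fun _ => 1) (fun _ => zero_le_one)).1 (psefR_of hps)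
    obtain ⟨t, -, ht⟩ := h2
    by_contra hcon
    have h3 : N0 = 0 := by omega
    subst h3
    have h4 := ht 0
    rw [Finset.univ_eq_empty, Finset.sum_empty] at h4
    exact one_ne_zero h4
  exact ⟨h1, fun hn => semi_of_good (h1 (hpsnef hn)) hn⟩

end Pool.Agent.Q57.TC
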