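import Pool.Agent.Q57.TC.TruB
import Pool.Agent.Q57.TC.One
import Pool.Agent.Q57.FT.Top
import Pool.Agent.Q57.GM.Top

/-!
The set-up for the coefficients of the pullbacks of log canonical divisors, for covers of products of
projective spaces.
-/

set_option autoImplicit false
set_option linter.overlappingInstances false
set_option linter.unusedSectionVars false
set_option maxHeartbeats 1000000

open FF MvPolynomial Pool.Agent.W603.LV Pool.Agent.W602.GT Pool.Agent.W602.Cov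
open Pool.Agent.TH756.PR Pool.Agent.TH122.AB Pool.Agent.TH756.PN
open Pool.Agent.Y169.CH Pool.Agent.Q57.TP Pool.Agent.Q57.TQ Pool.Agent.Q57.GM
open Pool.Agent.Q57.GH Pool.Agent.Q57.FG Pool.Agent.Q57.FH Pool.Agent.Q57.GG Pool.Agent.Q57.GE
open Pool.Agent.Q57.FT

namespace Pool.Agent.Q57.TC

variable {r N R p : ℕ} {n : Fin r → ℕ} {K : Type} [Field K] [Algebra ℂ K]

/-- the canonical form of the product of the projective spaces -/
noncomputable def omS (x : ∀ i, Fin (n i + 1) → K)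
    (D : ((i : Fin r) × Fin (n i)) → Derivation ℂ K K) : K :=
  (∏ i, x i 0 ^ (n i + 1)) * (Matrix.of fun b b' => D b (aff x b')).det

/-- its order at a place -/
noncomputable def moS (x : ∀ i, Fin (n i + 1) → K) (P : Place ℂ K) : ℤ :=
  sInf {k : ℤ | ∃ D : ((i : Fin r) × Fin (n i)) → Derivation ℂ K K, (∀ b, DerReg P (D b)) ∧
    omS x D ≠ 0 ∧ P.ord (omS x D) = k}

theorem omS_e (e : ((i : Fin r) × Fin (n i)) ≃ Fin N) (x : ∀ i, Fin (n i + 1) → K)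
    (D : Fin N → Derivation ℂ K K) : omS x (fun b => D (e b)) = om e D x := by
  unfold omS om
  congr 1
  rw [← Matrix.det_submatrix_equiv_self e (Matrix.of fun a b : Fin N => D a (uu e x b))]
  congr 1
  ext b b'
  rw [Matrix.submatrix_apply, Matrix.of_apply, Matrix.of_apply]
  unfold uu
  rw [e.symm_apply_apply]

theorem moS_eq (e : ((i : Fin r) × Fin (n i)) ≃ Fin N) (x : ∀ i, Fin (n i + 1) → K)
    (P : Place ℂ K) : moS x P = mo e x P := by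
  unfold moS mo
  congr 1
  ext k
  constructor
  · rintro ⟨D, hD, h0, hk⟩
    have h1 := omS_e e x fun a => D (e.symm a)
    simp only [e.symm_apply_apply] at h1
    refine ⟨fun a => D (e.symm a), fun a => hD _, ?_, ?_⟩
    · rw [← h1]
      exact h0
    · rw [← h1]
      exact hk
  · rintro ⟨D, hD, h0, hk⟩
    refine ⟨fun b => D (e b), fun b => hD _, ?_, ?_⟩
    · rw [omS_e]
      exact h0
    · rw [omS_e]
      exact hk

/-- the log discrepancy of the product of the projective spaces, with the hypersurfaces as the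
boundary -/
noncomputable def lD (F : ∀ i, MvPolynomial (Fin (n i + 1)) ℂ) (d : Fin r → ℕ)
    (x : ∀ i, Fin (n i + 1) → K) (P : Place ℂ K) : ℤ :=
  moS x P + 1 - ∑ i, (mulQ F d x P i : ℤ) - ∑ i, ((n i : ℤ) + 1) * minO (x i) P

/-- **The set-up**: coordinates in which the divisors are toroidal. -/
theorem setupT (hr : 1 ≤ r) (hn : ∀ i, 1 ≤ n i) (hN : N = ∑ i, n i)
    {F : ∀ i, MvPolynomial (Fin (n i + 1)) ℂ} {d : Fin r → ℕ} (hd : ∀ i, 1 ≤ d i)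
    (hh : ∀ i, (F i).IsHomogeneous (d i)) (hs : ∀ i, SmF (F i))
    {x : ∀ i, Fin (n i + 1) → K} (hx0 : ∀ i, x i 0 ≠ 0)
    (hbas : IsTranscendenceBasis ℂ (aff x)) {m : Fin R → ℕ} (hm : ∀ j, 0 < m j)
    {a : Fin R → Fin r → ℕ} (hdiv : ∀ j i, m j ∣ a j i * d i) {z : Fin R → K}
    (hz : ∀ j, z j ^ m j = ∏ i, (aeval (x i) (F i) / x i 0 ^ d i) ^ a j i)
    (hgen : IntermediateField.adjoin ℂ (Set.range (aff x) ∪ Set.range z) = ⊤) :
    ∃ (N' : ℕ) (e : ((i : Fin r) × Fin (n i)) ≃ Fin (N' + 1)) (Φ : Blk ℂ (N' + 1) r)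
      (C : Cvr Φ K R) (x' : ∀ i, Fin (n i + 1) → K) (F' : ∀ i, MvPolynomial (Fin (n i + 1)) ℂ),
      N = N' + 1 ∧ Smo Φ ∧ C.M = m ∧ C.a = a ∧ Mon e C d x' F' ∧
      (∀ P v, MultH C P v → v = mulQ F d x P) ∧
      ∀ (c : (Fin r → ℕ) → ℚ) (δ : Place ℂ K → ℚ),
        (∀ P, δ P = (if mulQ F d x P = 0 then 1 else c (mulQ F d x P)) - lD F d x P) →
        CoefTr e d x' F' c δ := by
  classical
  obtain ⟨N', hN'⟩ : ∃ N', N = N' + 1 := by
    have h1 : n ⟨0, hr⟩ ≤ ∑ i, n i :=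
      Finset.single_le_sum (f := n) (fun _ _ => Nat.zero_le _) (Finset.mem_univ _)
    have h2 := hn ⟨0, hr⟩
    exact ⟨N - 1, by omega⟩
  let e : ((i : Fin r) × Fin (n i)) ≃ Fin (N' + 1) :=
    finSigmaFinEquiv.trans (finCongr (by omega))
  have hbas' : IsTranscendenceBasis ℂ (uu e x) := basis_uu e hbas
  have hrange : Set.range (uu e x) = Set.range (aff x) := by
    ext z
    constructor
    · rintro ⟨b, rfl⟩
      exact ⟨e.symm b, rfl⟩
    · rintro ⟨a, rfl⟩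
      refine ⟨e a, ?_⟩
      change aff x (e.symm (e a)) = _
      rw [e.symm_apply_apply]
  obtain ⟨Φ, hΦ, hΦn, hΦD, C, hCM, hCa, hvv, x', F', hx', hs', hh', hFx', hZ, hFZ, hτ, hmin,
    κ, hκ0, hκ⟩ :=
    exists_cvr_o e hn hx0 hbas' hd hs hh hm hz hdiv (by rw [hrange]; exact hgen)
  have H : Mon e C d x' F' := ⟨hn, hx', hs', hh', hFx', hZ, hFZ, hτ, hΦn, hΦD⟩
  refine ⟨N', e, Φ, C, x', F', hN', hΦ, hCM, hCa, H, hvv, fun c δ hδ P α l v hdat => ?_⟩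
  have hv := hvv P v (hdat.multH H)
  have hκK : algebraMap ℂ K κ ≠ 0 := by
    rw [Ne, map_eq_zero]
    exact hκ0
  have hmo : mo e x' P = moS x P := by
    rw [moS_eq e]
    unfold mo
    congr 1
    ext k
    constructor
    · rintro ⟨D, hD, h0, hk⟩
      rw [hκ] at h0
      have h0' : om e D x ≠ 0 := right_ne_zero_of_mul h0
      rw [hκ, P.ord_mul hκK h0', P.ord_const hκ0, zero_add] at hk
      exact ⟨D, hD, h0', hk⟩
    · rintro ⟨D, hD, h0, hk⟩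
      refine ⟨D, hD, ?_, ?_⟩
      · rw [hκ]
        exact mul_ne_zero hκK h0
      · rw [hκ, P.ord_mul hκK h0, P.ord_const hκ0, zero_add]
        exact hk
  rw [hδ, ← hv, hmo]
  congr 1
  unfold lD
  rw [← hv]
  push_cast
  congr 1
  refine Finset.sum_congr rfl fun i _ => ?_
  rw [hmin, datH_min hdat]

/-- **The main theorem**: several boundaries. -/
theorem main_b (hr : 1 ≤ r) (hn : ∀ i, 1 ≤ n i) (hN : N = ∑ i, n i)
    {F : ∀ i, MvPolynomial (Fin (n i + 1)) ℂ} {d : Fin r → ℕ} (hd : ∀ i, 1 ≤ d i)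
    (hh : ∀ i, (F i).IsHomogeneous (d i)) (hs : ∀ i, SmF (F i))
    {x : ∀ i, Fin (n i + 1) → K} (hx0 : ∀ i, x i 0 ≠ 0)
    (hbas : IsTranscendenceBasis ℂ (aff x)) {m : Fin R → ℕ} (hm : ∀ j, 0 < m j)
    {a : Fin R → Fin r → ℕ} (hdiv : ∀ j i, m j ∣ a j i * d i) {z : Fin R → K}
    (hz : ∀ j, z j ^ m j = ∏ i, (aeval (x i) (F i) / x i 0 ^ d i) ^ a j i)
    (hgen : IntermediateField.adjoin ℂ (Set.range (aff x) ∪ Set.range z) = ⊤)
    {c : Fin p → (Fin r → ℕ) → ℚ} (hc0 : ∀ i, c i 0 = 0) (hc1 : ∀ i v, c i v ≤ 1)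
    (hmul : ∀ i v (k : ℕ), 1 ≤ k → Adm m a v → 1 - c i (k • v) ≤ k * (1 - c i v))
    (hfg : ∃ T : Finset (Fin r → ℕ), (∀ s ∈ T, Adm m a s) ∧ ∀ v, Adm m a v →
      ∃ w : (Fin r → ℕ) → ℚ, (∀ s, 0 ≤ w s) ∧ (∀ k, ∑ s ∈ T, w s * s k ≤ v k) ∧
        ∀ i, 1 - c i v ≤ ∑ s ∈ T, w s * (1 - c i s)) {δ : Fin p → Place ℂ K → ℚ}
    (hδ : ∀ i P, δ i P = (if mulQ F d x P = 0 then 1 else c i (mulQ F d x P)) - lD F d x P) :
    ∃ (N0 : ℕ) (g : Fin N0 → Fin p →₀ ℕ) (ω : Fin N0 → (Fin N → Derivation ℂ K K) → K),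
      (∀ b, g b ≠ 0 ∧ MSec N δ (g b) (ω b)) ∧
      (∀ (P : Place ℂ K) (S : Finset K) (D : Fin N → Derivation ℂ K K), ∃ C1 : ℕ,
        ∀ (μ : Fin p →₀ ℕ) (j : ℕ) (η : (Fin N → Derivation ℂ K K) → K), μ ≠ 0 →
          ASec N δ S μ j η → η D = 0 ∨ ((∀ b, ω b D ≠ 0) ∧
            ∃ e : Fin N0 → ℕ,
              (∀ i, |∑ b, (e b : ℤ) * g b i - μ i| ≤ C1 * (j + 1)) ∧
              ∑ b, (e b : ℤ) * P.ord (ω b D) ≤ P.ord (η D) + C1 * (j + 1))) ∧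
      (∃ P : Place ℂ K, Divisorial N P) ∧
      ∃ (w : (Fin N → Derivation ℂ K K) → K) (u : K) (D0 : Fin N → Derivation ℂ K K),
        u ≠ 0 ∧ (∀ b, ω b D0 ≠ 0) ∧
        ∀ (m : ℕ) (η : (Fin N → Derivation ℂ K K) → K), IsPluri m η →
          ∀ D, η D * u ^ m = w D ^ m * η D0 := by
  classical
  obtain ⟨N', e, Φ, C, x', F', rfl, hΦ, rfl, rfl, H, hvv, hco⟩ :=
    setupT (N := N) hr hn hN hd hh hs hx0 hbas hm hdiv hz hgen
  have ht : ∀ i, CoefTr e d x' F' (c i) (δ i) := fun i => hco (c i) (δ i) (hδ i)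
  have hcf : ∀ i, CoefH C (c i) (fun P => c i (mulQ F d x P)) := fun i =>
    ⟨hc0 i, hc1 i, fun P v h => by rw [hvv P v h]⟩
  obtain ⟨T, hT1, hT2⟩ := hfg
  obtain ⟨N0, g, ω, h1, hex, h2, D0, h3, h4⟩ := geoBx H hd hΦ hcf hmul hT1 hT2
  have hu : ∏ i, x' i 0 ^ (n i + 1) ≠ 0 :=
    Finset.prod_ne_zero_iff.2 fun i _ => pow_ne_zero _ (H.hx i 0)
  refine ⟨N0, g, ω, fun b => ⟨(h1 b).1, ?_⟩, fun P S D => ?_,
    exists_divisorial C.hZ C.bas_Y C.adj_le C.fin_Y, fun D => om e D x',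
    ∏ i, x' i 0 ^ (n i + 1), D0, hu, h3, h4⟩
  · obtain ⟨y, l, hωb, hdeg, hadm⟩ := hex b
    rw [hωb]
    exact sH_tr H ht (h1 b).1 hdeg hadm l
  · obtain ⟨C1, hC1⟩ := h2 P S D
    exact ⟨C1, fun μ j η hμ hη => hC1 μ j η hμ (asec_iff.1 (asec_tr H h4 ht hcf hμ hη))⟩

end Pool.Agent.Q57.TC
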