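import Pool.Agent.Q57.TC.FreA

/-!
Effective base point freeness of nef log canonical divisors, for toroidal models of covers of the
projective space: the main theorem.
-/

set_option autoImplicit false
set_option linter.overlappingInstances false
set_option linter.unusedSectionVars false
set_option maxHeartbeats 1000000

open FF MvPolynomial Pool.Agent.W603.LV Pool.Agent.W619.PQ
open Pool.Agent.W619.TW Pool.Agent.W602.GT Pool.Agent.TH122.AB Pool.Agent.TH756.PN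
open Pool.Agent.Y169.CH Pool.Agent.W602.Cov Pool.Agent.W602.Cov.G
open Pool.Agent.Q57.TP Pool.Agent.TH152.AC Pool.Agent.Q57.GM Pool.Agent.Q57.FG
open Pool.Agent.Q57.GG

namespace Pool.Agent.Q57.TC

open Pool.Agent.Y169.TH (Arr Cv Dat Snc)

variable {d R : ℕ} {K : Type} [Field K] [Algebra ℂ K] {x : Fin (d + 2) → K}
  {F : Fin (d + 2) → MvPolynomial (Fin (d + 2)) ℂ}
  {dF : Fin (d + 2) → ℕ} {z : Fin R → K} {M : Fin R → ℕ} {a : Fin R → Fin (d + 2) → ℕ}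

/-- nothing is nef if the sum of the degrees is small -/
theorem kappa_of_nef (hx0 : x 0 ≠ 0)
    (hbas : IsTranscendenceBasis ℂ fun b : Fin (d + 1) => x b.succ / x 0) (hd : ∀ k, 0 < dF k)
    (hh : ∀ k, (F k).IsHomogeneous (dF k)) (hS : Snc F) (hM : ∀ j, 0 < M j)
    (hz : ∀ j, z j ^ M j = ∏ k, (aeval x (F k) / x 0 ^ dF k) ^ a j k)
    (hdiv : ∀ j, M j ∣ ∑ k, a j k * dF k)
    (hgen : IntermediateField.adjoin ℂ
      (Set.range (fun b : Fin (d + 1) => x b.succ / x 0) ∪ Set.range z) = ⊤)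
    {c : (Fin (d + 2) → ℕ) → ℚ} (hc0 : c 0 = 0) (hc1 : ∀ v, c v ≤ 1)
    (hmul : ∀ v (r : ℕ), 1 ≤ r → Pool.Agent.Y169.TH.Adm M a v → 1 - c (r • v) ≤ r * (1 - c v))
    (hfg : FG M a c) {δ : Place ℂ K → ℚ}
    (hδ : ∀ P, δ P = (if mul F dF x P = 0 then 1 else c (mul F dF x P)) - lDA F dF x P)
    (hn : BNef (d + 1) δ) : d + 2 ≤ ∑ k, dF k := by
  classical
  by_contra hκ
  have hmain := (main_d hx0 hbas hd hh hS hM hz hdiv hgen hc0 hc1 hmul hfg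
    (δ := fun P => c (mul F dF x P)) fun P => rfl).1
  obtain ⟨Φ, rfl, C, rfl, rfl, hvv, hco⟩ := setA hx0 hbas hd hh hS hM hz hdiv hgen
  have hcf : Coef C c (fun P => c (mul F Φ.dF x P)) :=
    ⟨hc0, hc1, fun P α v h => by rw [hvv P α v h]⟩
  have ht : CoefTa C c δ := hco c δ hδ
  obtain ⟨D0, hD0'⟩ := exists_dual C.u_bas
  have hD0 : ∀ i j, D0 i (C.u j) = if i = j then 1 else 0 := by
    intro i j
    have h1 := congrFun (congrFun hD0' i) j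
    rw [Matrix.of_apply, Matrix.one_apply] at h1
    exact h1
  have hps := psef_of_nef (exists_divisorial C.u_bas C.bas_Y C.adj_le C.fin_Y) hn
  have h1 : BPsef (d + 1) fun P => c (mul F Φ.dF x P) := by
    obtain ⟨S, hS'⟩ := hps
    refine ⟨insert 1 S, fun M' => ?_⟩
    by_cases hM' : M' = 0
    · refine ⟨1, le_rfl, fun _ => 1, fun h0 => one_ne_zero (congrFun h0 fun _ => 0), ?_,
        fun P _ D _ => Or.inr ⟨1, Finset.mem_insert_self _ _, one_ne_zero, ?_⟩⟩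
      · intro A D
        rw [hM', mul_zero, pow_zero, one_mul]
      · rw [hM', P.ord_one]
        simp
    · obtain ⟨j, hj, η, hη0, hη⟩ := hS' M'
      refine ⟨j, hj, η, hη0, ?_⟩
      have h2 := asec_ta (p := 1) C hD0 (c := fun _ => c) (δ := fun _ => δ)
        (δ0 := fun _ P => c (mul F Φ.dF x P)) (fun _ => ht) (fun _ => hcf)
        (single_ne (Nat.mul_pos hj (Nat.pos_of_ne_zero hM'))) (bsec_asec.1 hη)
      have h3 := bsec_asec.2 h2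
      refine ⟨h3.1, fun P hP D hD => (h3.2 P hP D hD).imp id ?_⟩
      rintro ⟨s, hs, hs0, hle⟩
      exact ⟨s, Finset.mem_insert_of_mem hs, hs0, hle⟩
  obtain ⟨y, hy⟩ := hmain.1 h1
  rw [PiC] at hy
  obtain ⟨hy1, hy2⟩ := hy
  have h3 : ∀ k, 0 ≤ y k := by
    intro k
    have h4 := hy2 (uv C.M k) (adm_unit hM (by omega) k)
    have h5 : ∑ l, ((uv C.M k l : ℕ) : ℚ) * y l = Pool.Agent.Y169.TH.per C.M * y k := by
      rw [Finset.sum_eq_single k]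
      · unfold uv
        rw [if_pos rfl]
      · intro l _ hl
        unfold uv
        rw [if_neg hl, Nat.cast_zero, zero_mul]
      · intro h
        exact absurd (Finset.mem_univ _) h
    have h6 := hc1 (uv C.M k)
    have h7 : (0 : ℚ) < Pool.Agent.Y169.TH.per C.M := by
      exact_mod_cast Pool.Agent.Y169.TH.per_pos hM
    by_contra hcon
    push Not at hcon
    have h8 : Pool.Agent.Y169.TH.per C.M * y k < 0 := mul_neg_of_pos_of_neg h7 hcon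
    rw [← h5] at h8
    linarith
  have h4 : 0 ≤ ∑ k, (Φ.dF k : ℚ) * y k :=
    Finset.sum_nonneg fun k _ => mul_nonneg (by positivity) (h3 k)
  have h5 : ((∑ k, Φ.dF k : ℕ) : ℚ) < ((d + 2 : ℕ) : ℚ) := by
    exact_mod_cast not_le.1 hκ
  push_cast at h5
  rw [hy1] at h4
  push_cast at h4
  linarith

/-- the function `ψ` is linear on the cones of a fan, in the faces of the orthant -/
structure FanP (M : Fin R → ℕ) (a : Fin R → Fin (d + 2) → ℕ)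
    (S : Finset (Finset (Fin (d + 2) → ℕ))) (ψ : (Fin (d + 2) → ℕ) → ℚ) : Prop where
  adm : ∀ σ ∈ S, ∀ s ∈ σ, Pool.Agent.Y169.TH.Adm M a s
  full : ∀ σ ∈ S, ∃ k0, (∀ s ∈ σ, s k0 = 0) ∧ ∀ f : Fin (d + 2) → ℚ, f k0 = 0 →
    ∃ q : (Fin (d + 2) → ℕ) → ℚ, ∀ k, f k = ∑ s ∈ σ, q s * s k
  cover : ∀ v, Pool.Agent.Y169.TH.Adm M a v → ∃ σ ∈ S, InK σ v
  lin : ∀ σ ∈ S, ∃ u : Fin (d + 2) → ℚ, ∀ v, Pool.Agent.Y169.TH.Adm M a v → InK σ v →
    ψ v = ∑ k, u k * v k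

/-- **The main theorem.** -/
theorem main_free_a (hx0 : x 0 ≠ 0)
    (hbas : IsTranscendenceBasis ℂ fun b : Fin (d + 1) => x b.succ / x 0) (hd : ∀ k, 0 < dF k)
    (hh : ∀ k, (F k).IsHomogeneous (dF k)) (hS : Snc F) (hM : ∀ j, 0 < M j)
    (hz : ∀ j, z j ^ M j = ∏ k, (aeval x (F k) / x 0 ^ dF k) ^ a j k)
    (hdiv : ∀ j, M j ∣ ∑ k, a j k * dF k)
    (hgen : IntermediateField.adjoin ℂ
      (Set.range (fun b : Fin (d + 1) => x b.succ / x 0) ∪ Set.range z) = ⊤)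
    {ψ : (Fin (d + 2) → ℕ) → ℚ} (hψ0 : ψ 0 = 0) (hψ1 : ∀ v, 0 ≤ ψ v)
    {S : Finset (Finset (Fin (d + 2) → ℕ))} (hfan : FanP M a S ψ) {δ : Place ℂ K → ℚ}
    (hδ : ∀ P, δ P = 1 - ψ (mul F dF x P) - lDA F dF x P) {ρ : ℕ} (hρ1 : 1 ≤ ρ)
    (hρ : ∀ v, Pool.Agent.Y169.TH.Adm M a v → ∃ z : ℤ, (ρ : ℚ) * ψ v = z) {t : ℕ}
    (ht1 : 1 ≤ t) (htd : ∀ k, dF k ∣ t) (hn : BNef (d + 1) δ) :
    ∀ P : Place ℂ K, Divisorial (d + 1) P → ∃ ω, BSec (d + 1) δ {1} (t * ρ) 0 ω ∧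
      ∃ D, (∀ c, DerReg P (D c)) ∧ ω D ≠ 0 ∧ (P.ord (ω D) : ℚ) ≤ - (((t * ρ : ℕ) : ℚ) * δ P) := by
  classical
  have hfanc : FanA M a S (cpa ψ) := by
    refine ⟨hfan.adm, hfan.full, hfan.cover, fun σ hσ => ?_⟩
    obtain ⟨u, hu⟩ := hfan.lin σ hσ
    exact ⟨u, fun v hv hvσ => by rw [cpa_ne hv.1, sub_sub_cancel]; exact hu v hv hvσ⟩
  have hδ' : ∀ P, δ P = (if mul F dF x P = 0 then 1 else cpa ψ (mul F dF x P)) -
      lDA F dF x P := fun P => by rw [hδ, cpa_ite hψ0]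
  have hκ := kappa_of_nef hx0 hbas hd hh hS hM hz hdiv hgen (if_pos rfl) (cpa_le hψ1) hfanc.ray
    hfanc.fg hδ' hn
  obtain ⟨Φ, rfl, C, rfl, rfl, hvv, hco⟩ := setA hx0 hbas hd hh hS hM hz hdiv hgen
  have hcf : Coef C (cpa ψ) (fun P => cpa ψ (mul F Φ.dF x P)) :=
    ⟨if_pos rfl, cpa_le hψ1, fun P α v h => by rw [hvv P α v h]⟩
  have hκ' : 0 ≤ ∑ k, (Φ.dF k : ℤ) - (d + 2) := by
    have h1 : ((d + 2 : ℕ) : ℤ) ≤ ((∑ k, Φ.dF k : ℕ) : ℤ) := by exact_mod_cast hκ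
    push_cast at h1
    linarith
  refine free_a C (hco _ δ hδ') hcf hfanc hκ' hρ1 (fun v hv => ?_) ht1 htd hn
  obtain ⟨z, hz⟩ := hρ v hv
  refine ⟨ρ - z, ?_⟩
  rw [cpa_ne hv.1]
  push_cast
  rw [← hz]
  ring

end Pool.Agent.Q57.TC
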