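import Pool.Agent.Q57.TC.GeoA
import Pool.Agent.Q57.TC.One
import Pool.Agent.Q57.FG.TopA
import Pool.Agent.Q57.GM.Top

/-!
The geography of models and the nef cone, for covers of the projective space, with the coefficients
of the pullbacks of log canonical divisors: the main theorems.
-/

set_option autoImplicit false
set_option linter.overlappingInstances false
set_option linter.unusedSectionVars false
set_option maxHeartbeats 1000000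

open FF MvPolynomial Pool.Agent.W603.LV Pool.Agent.W619.PQ
open Pool.Agent.W619.TW Pool.Agent.W602.GT Pool.Agent.TH122.AB Pool.Agent.TH756.PN
open Pool.Agent.Y169.CH Pool.Agent.W602.Cov Pool.Agent.W602.Cov.G Pool.Agent.Y169.TH
open Pool.Agent.Q57.TP Pool.Agent.TH152.AC Pool.Agent.Q57.GM Pool.Agent.Q57.FG
open Pool.Agent.Q57.GG

namespace Pool.Agent.Q57.TC

variable {d R p : ℕ} {K : Type} [Field K] [Algebra ℂ K]

/-- the canonical form of the projective space -/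
noncomputable def cfA (x : Fin (d + 2) → K) (D : Fin (d + 1) → Derivation ℂ K K) : K :=
  x 0 ^ (d + 2) * (Matrix.of fun a b : Fin (d + 1) => D a (x b.succ / x 0)).det

/-- its order at a place -/
noncomputable def moA (x : Fin (d + 2) → K) (P : Place ℂ K) : ℤ :=
  sInf {k : ℤ | ∃ D : Fin (d + 1) → Derivation ℂ K K, (∀ a, DerReg P (D a)) ∧ cfA x D ≠ 0 ∧
    P.ord (cfA x D) = k}

theorem cfA_bw {x : Fin (d + 2) → K} (hx0 : x 0 ≠ 0) (D : Fin (d + 1) → Derivation ℂ K K) :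
    cfA x D = bw D x := (Pool.Agent.W930.CG.bw_eq bwa D x hx0).symm

theorem moA_eq {x : Fin (d + 2) → K} (hx0 : x 0 ≠ 0) (P : Place ℂ K) :
    moA x P = mow (fun D => bw D x) P := by
  unfold moA mow
  simp only [cfA_bw hx0]

/-- the log discrepancy of the projective space, with the hypersurfaces as the boundary -/
noncomputable def lDA (F : Fin (d + 2) → MvPolynomial (Fin (d + 2)) ℂ) (dF : Fin (d + 2) → ℕ)
    (x : Fin (d + 2) → K) (P : Place ℂ K) : ℤ :=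
  moA x P + 1 - ∑ k, (mul F dF x P k : ℤ) - ((d : ℤ) + 2) * minO x P

/-- **The set-up.** -/
theorem setA {x : Fin (d + 2) → K} (hx0 : x 0 ≠ 0)
    (hbas : IsTranscendenceBasis ℂ fun b : Fin (d + 1) => x b.succ / x 0)
    {F : Fin (d + 2) → MvPolynomial (Fin (d + 2)) ℂ} {dF : Fin (d + 2) → ℕ} (hd : ∀ k, 0 < dF k)
    (hh : ∀ k, (F k).IsHomogeneous (dF k)) (hS : Snc F) {z : Fin R → K} {M : Fin R → ℕ}
    (hM : ∀ j, 0 < M j) {a : Fin R → Fin (d + 2) → ℕ}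
    (hz : ∀ j, z j ^ M j = ∏ k, (aeval x (F k) / x 0 ^ dF k) ^ a j k)
    (hdiv : ∀ j, M j ∣ ∑ k, a j k * dF k)
    (hgen : IntermediateField.adjoin ℂ
      (Set.range (fun b : Fin (d + 1) => x b.succ / x 0) ∪ Set.range z) = ⊤) :
    ∃ Φ : Arr (d + 1), Φ.dF = dF ∧ ∃ C : Cv Φ K R, C.M = M ∧ C.a = a ∧
      (∀ P α v, Dat P Φ.F Φ.dF C.x α v → v = mul F dF x P) ∧
      ∀ (c : (Fin (d + 2) → ℕ) → ℚ) (δ : Place ℂ K → ℚ),
        (∀ P, δ P = (if mul F dF x P = 0 then 1 else c (mul F dF x P)) - lDA F dF x P) →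
        CoefTa C c δ := by
  classical
  obtain ⟨Φ, hΦ, C, hCM, hCa, lam, hlam0, hlam, hv⟩ :=
    exists_cv_o hx0 hbas hd hh hS hM hz hdiv hgen
  refine ⟨Φ, hΦ, C, hCM, hCa, fun P α v h => (hv P α v h).1, fun c δ hδ P α v h hD => ?_⟩
  obtain ⟨D, hD, hbw⟩ := hD
  obtain ⟨h1, h2⟩ := hv P α v h
  have h3 := mow_scale (w := fun D => bw D C.x) (w' := fun D => bw D x) hlam0 hlam (bw_low C h)
    hD hbw
  rw [hδ, ← h1, h3, ← moA_eq hx0]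
  congr 1
  unfold lDA
  rw [← h1, h2]
  push_cast
  ring

section

variable {x : Fin (d + 2) → K} {F : Fin (d + 2) → MvPolynomial (Fin (d + 2)) ℂ}
  {dF : Fin (d + 2) → ℕ} {z : Fin R → K} {M : Fin R → ℕ} {a : Fin R → Fin (d + 2) → ℕ}

/-- **The main theorem**: several boundaries. -/
theorem main_a (hx0 : x 0 ≠ 0)
    (hbas : IsTranscendenceBasis ℂ fun b : Fin (d + 1) => x b.succ / x 0) (hd : ∀ k, 0 < dF k)
    (hh : ∀ k, (F k).IsHomogeneous (dF k)) (hS : Snc F) (hM : ∀ j, 0 < M j)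
    (hz : ∀ j, z j ^ M j = ∏ k, (aeval x (F k) / x 0 ^ dF k) ^ a j k)
    (hdiv : ∀ j, M j ∣ ∑ k, a j k * dF k)
    (hgen : IntermediateField.adjoin ℂ
      (Set.range (fun b : Fin (d + 1) => x b.succ / x 0) ∪ Set.range z) = ⊤)
    (hκ : d + 2 ≤ ∑ k, dF k)
    {c : Fin p → (Fin (d + 2) → ℕ) → ℚ} (hc0 : ∀ i, c i 0 = 0) (hc1 : ∀ i v, c i v ≤ 1)
    (hmul : ∀ i v (r : ℕ), 1 ≤ r → Pool.Agent.Y169.TH.Adm M a v →
      1 - c i (r • v) ≤ r * (1 - c i v))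
    (hfg : ∃ T : Finset (Fin (d + 2) → ℕ), (∀ s ∈ T, Pool.Agent.Y169.TH.Adm M a s) ∧
      ∀ v, Pool.Agent.Y169.TH.Adm M a v →
      ∃ w : (Fin (d + 2) → ℕ) → ℚ, (∀ s, 0 ≤ w s) ∧ (∀ k, ∑ s ∈ T, w s * s k ≤ v k) ∧
        ∀ i, 1 - c i v ≤ ∑ s ∈ T, w s * (1 - c i s)) {δ : Fin p → Place ℂ K → ℚ}
    (hδ : ∀ i P, δ i P = (if mul F dF x P = 0 then 1 else c i (mul F dF x P)) -
      lDA F dF x P) :
    ∃ (N0 : ℕ) (g : Fin N0 → Fin p →₀ ℕ) (ω : Fin N0 → (Fin (d + 1) → Derivation ℂ K K) → K),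
      (∀ b, g b ≠ 0 ∧ MSec (d + 1) δ (g b) (ω b)) ∧
      (∀ (P : Place ℂ K) (S : Finset K) (D : Fin (d + 1) → Derivation ℂ K K), ∃ C1 : ℕ,
        ∀ (μ : Fin p →₀ ℕ) (j : ℕ) (η : (Fin (d + 1) → Derivation ℂ K K) → K), μ ≠ 0 →
          GG.ASec (d + 1) δ S μ j η → η D = 0 ∨ ((∀ b, ω b D ≠ 0) ∧
            ∃ e : Fin N0 → ℕ,
              (∀ i, |∑ b, (e b : ℤ) * g b i - μ i| ≤ C1 * (j + 1)) ∧
              ∑ b, (e b : ℤ) * P.ord (ω b D) ≤ P.ord (η D) + C1 * (j + 1))) ∧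
      (∃ P : Place ℂ K, Divisorial (d + 1) P) ∧
      ∃ (w : (Fin (d + 1) → Derivation ℂ K K) → K) (u : K)
        (D0 : Fin (d + 1) → Derivation ℂ K K),
        u ≠ 0 ∧ (∀ b, ω b D0 ≠ 0) ∧
        ∀ (m : ℕ) (η : (Fin (d + 1) → Derivation ℂ K K) → K), IsPluri m η →
          ∀ D, η D * u ^ m = w D ^ m * η D0 := by
  classical
  obtain ⟨T, hT⟩ := exists_bigM hM hfg
  obtain ⟨Φ, rfl, C, rfl, rfl, hvv, hco⟩ := setA hx0 hbas hd hh hS hM hz hdiv hgen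
  have ht : ∀ i, CoefTa C (c i) (δ i) := fun i => hco (c i) (δ i) (hδ i)
  have hcf : ∀ i, Coef C (c i) (fun P => c i (mul F Φ.dF x P)) := fun i =>
    ⟨hc0 i, hc1 i, fun P α v h => by rw [hvv P α v h]⟩
  have hκ' : 0 ≤ ∑ k, (Φ.dF k : ℤ) - (d + 2) := by
    have h1 : ((d + 2 : ℕ) : ℤ) ≤ ((∑ k, Φ.dF k : ℕ) : ℤ) := by exact_mod_cast hκ
    push_cast at h1
    linarith
  obtain ⟨N0, g, ω, h1, h2, D0, h3, hD0⟩ := geoAx C hcf hmul hT hκ'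
  refine ⟨N0, g, ω, fun b => ⟨(h1 b).1, ?_⟩, fun P S D => ?_,
    exists_divisorial C.u_bas C.bas_Y C.adj_le C.fin_Y, fun D => bw D C.x, 1, D0, one_ne_zero,
    h3, fun m η hη D => by rw [one_pow, mul_one]; exact pluri_eq C hD0 hη D⟩
  · obtain ⟨a, hωb, hE, hadm⟩ := (h1 b).2
    rw [hωb]
    exact sG_ta C ht (h1 b).1 hE hadm
  · obtain ⟨C1, hC1⟩ := h2 P S D
    exact ⟨C1, fun μ j η hμ hη => hC1 μ j η hμ (asec_iff.1 (asec_ta C hD0 ht hcf hμ hη))⟩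

/-- **The cone of the nef combinations.** -/
theorem main_an (hx0 : x 0 ≠ 0)
    (hbas : IsTranscendenceBasis ℂ fun b : Fin (d + 1) => x b.succ / x 0) (hd : ∀ k, 0 < dF k)
    (hh : ∀ k, (F k).IsHomogeneous (dF k)) (hS : Snc F) (hM : ∀ j, 0 < M j)
    (hz : ∀ j, z j ^ M j = ∏ k, (aeval x (F k) / x 0 ^ dF k) ^ a j k)
    (hdiv : ∀ j, M j ∣ ∑ k, a j k * dF k)
    (hgen : IntermediateField.adjoin ℂ
      (Set.range (fun b : Fin (d + 1) => x b.succ / x 0) ∪ Set.range z) = ⊤)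
    (hκ : d + 2 ≤ ∑ k, dF k)
    {c : Fin p → (Fin (d + 2) → ℕ) → ℚ} (hc0 : ∀ i, c i 0 = 0) (hc1 : ∀ i v, c i v ≤ 1)
    (hmul : ∀ i v (r : ℕ), 1 ≤ r → Pool.Agent.Y169.TH.Adm M a v →
      1 - c i (r • v) ≤ r * (1 - c i v))
    (hfg : ∃ T : Finset (Fin (d + 2) → ℕ), (∀ s ∈ T, Pool.Agent.Y169.TH.Adm M a s) ∧
      ∀ v, Pool.Agent.Y169.TH.Adm M a v →
      ∃ w : (Fin (d + 2) → ℕ) → ℚ, (∀ s, 0 ≤ w s) ∧ (∀ k, ∑ s ∈ T, w s * s k ≤ v k) ∧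
        ∀ i, 1 - c i v ≤ ∑ s ∈ T, w s * (1 - c i s)) {δ : Fin p → Place ℂ K → ℚ}
    (hδ : ∀ i P, δ i P = (if mul F dF x P = 0 then 1 else c i (mul F dF x P)) -
      lDA F dF x P) :
    ∃ (N0 : ℕ) (g : Fin N0 → Fin p →₀ ℕ) (ω : Fin N0 → (Fin (d + 1) → Derivation ℂ K K) → K)
      (BB : Finset (Finset (Fin N0))),
      (∀ b, g b ≠ 0 ∧ ω b ≠ 0 ∧ MSec (d + 1) δ (g b) (ω b)) ∧
      (∀ P : Place ℂ K, Divisorial (d + 1) P → ∃ B ∈ BB, ∀ b, b ∈ B ↔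
        NV (d + 1) δ (g b) (ω b) P) ∧
      ∀ lam : Fin p → ℝ, (∀ i, 0 ≤ lam i) → (NefR (d + 1) δ lam ↔ ∀ B ∈ BB,
        ∃ t : Fin N0 → ℝ, (∀ b, 0 ≤ t b) ∧ (∀ b, b ∉ B → t b = 0) ∧
          ∀ i, lam i = ∑ b, t b * g b i) := by
  classical
  obtain ⟨N0, g, ω, h1, h2, -, w, u, D0, hu, h3, h4⟩ :=
    main_a hx0 hbas hd hh hS hM hz hdiv hgen hκ hc0 hc1 hmul hfg hδ
  obtain ⟨BB, hB1, hB2⟩ := nefR_iff hu h4 h1 h2
  exact ⟨N0, g, ω, BB, fun b => ⟨(h1 b).1, fun h0 => h3 b (congrFun h0 D0), (h1 b).2⟩, hB1, hB2⟩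

/-- **One boundary.** -/
theorem main_a1 (hx0 : x 0 ≠ 0)
    (hbas : IsTranscendenceBasis ℂ fun b : Fin (d + 1) => x b.succ / x 0) (hd : ∀ k, 0 < dF k)
    (hh : ∀ k, (F k).IsHomogeneous (dF k)) (hS : Snc F) (hM : ∀ j, 0 < M j)
    (hz : ∀ j, z j ^ M j = ∏ k, (aeval x (F k) / x 0 ^ dF k) ^ a j k)
    (hdiv : ∀ j, M j ∣ ∑ k, a j k * dF k)
    (hgen : IntermediateField.adjoin ℂ
      (Set.range (fun b : Fin (d + 1) => x b.succ / x 0) ∪ Set.range z) = ⊤)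
    {c : (Fin (d + 2) → ℕ) → ℚ} (hc0 : c 0 = 0) (hc1 : ∀ v, c v ≤ 1)
    (hmul : ∀ v (r : ℕ), 1 ≤ r → Pool.Agent.Y169.TH.Adm M a v → 1 - c (r • v) ≤ r * (1 - c v))
    (hfg : FG M a c) {δ : Place ℂ K → ℚ}
    (hδ : ∀ P, δ P = (if mul F dF x P = 0 then 1 else c (mul F dF x P)) - lDA F dF x P) :
    (BPsef (d + 1) δ → BGood (d + 1) δ) ∧ (BNef (d + 1) δ → BSemi (d + 1) δ) := by
  classical
  have hmain := (main_d hx0 hbas hd hh hS hM hz hdiv hgen hc0 hc1 hmul hfg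
    (δ := fun P => c (mul F dF x P)) fun P => rfl).1
  by_cases hκ : d + 2 ≤ ∑ k, dF k
  · obtain ⟨N0, g, ω, h1, h2, h5, w, u, D0, hu, h3, h4⟩ :=
      main_a (p := 1) (c := fun _ => c) (δ := fun _ => δ) hx0 hbas hd hh hS hM hz hdiv hgen hκ
        (fun _ => hc0) (fun _ => hc1) (fun _ => hmul) (by
          obtain ⟨T, hT1, hT2⟩ := hfg
          refine ⟨T, hT1, fun v hv => ?_⟩
          obtain ⟨w, h1, h2, h3⟩ := hT2 v hv
          exact ⟨w, h1, h2, fun _ => h3⟩) (fun _ => hδ)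
    refine one_of_geo hu h4 h5 h1 h3 (fun P S => ?_) (psef_of_nef h5)
    obtain ⟨C1, hC1⟩ := h2 P S D0
    refine ⟨C1, fun μ j η hμ hη => (hC1 μ j η hμ hη).imp id fun h => ?_⟩
    exact h.2
  · -- nothing is pseudo-effective
    obtain ⟨Φ, rfl, C, rfl, rfl, hvv, hco⟩ := setA hx0 hbas hd hh hS hM hz hdiv hgen
    have hcf : Coef C c (fun P => c (mul F Φ.dF x P)) :=
      ⟨hc0, hc1, fun P α v h => by rw [hvv P α v h]⟩
    have ht : CoefTa C c δ := hco c δ hδ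
    obtain ⟨D0, hD0'⟩ := exists_dual C.u_bas
    have hD0 : ∀ i j, D0 i (C.u j) = if i = j then 1 else 0 := by
      intro i j
      have h1 := congrFun (congrFun hD0' i) j
      rw [Matrix.of_apply, Matrix.one_apply] at h1
      exact h1
    have hnot : ¬ BPsef (d + 1) δ := by
      intro hps
      have h1 : BPsef (d + 1) fun P => c (mul F Φ.dF x P) := by
        obtain ⟨S, hS'⟩ := hps
        refine ⟨insert 1 S, fun M' => ?_⟩
        by_cases hM' : M' = 0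
        · refine ⟨1, le_rfl, fun _ => 1, fun h0 => one_ne_zero (congrFun h0 fun _ => 0), ?_,
            fun P _ D _ => Or.inr ⟨1, Finset.mem_insert_self _ _, one_ne_zero, ?_⟩⟩
          · intro A D
            rw [hM', mul_zero, pow_zero, one_mul]
          · rw [hM', P.ord_one]
            simp
        · obtain ⟨j, hj, η, hη0, hη⟩ := hS' M'
          refine ⟨j, hj, η, hη0, ?_⟩
          have h2 := asec_ta (p := 1) C hD0 (c := fun _ => c) (δ := fun _ => δ)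
            (δ0 := fun _ P => c (mul F Φ.dF x P)) (fun _ => ht) (fun _ => hcf)
            (single_ne (Nat.mul_pos hj (Nat.pos_of_ne_zero hM'))) (bsec_asec.1 hη)
          have h3 := bsec_asec.2 h2
          refine ⟨h3.1, fun P hP D hD => (h3.2 P hP D hD).imp id ?_⟩
          rintro ⟨s, hs, hs0, hle⟩
          exact ⟨s, Finset.mem_insert_of_mem hs, hs0, hle⟩
      obtain ⟨y, hy⟩ := hmain.1 h1
      rw [PiC] at hy
      obtain ⟨hy1, hy2⟩ := hy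
      have h3 : ∀ k, 0 ≤ y k := by
        intro k
        have h4 := hy2 (uv C.M k) (adm_unit hM (by omega) k)
        have h5 : ∑ l, ((uv C.M k l : ℕ) : ℚ) * y l = per C.M * y k := by
          rw [Finset.sum_eq_single k]
          · unfold uv
            rw [if_pos rfl]
          · intro l _ hl
            unfold uv
            rw [if_neg hl, Nat.cast_zero, zero_mul]
          · intro h
            exact absurd (Finset.mem_univ _) h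
        have h6 := hc1 (uv C.M k)
        have h7 : (0 : ℚ) < per C.M := by exact_mod_cast per_pos hM
        by_contra hcon
        push Not at hcon
        have h8 : per C.M * y k < 0 := mul_neg_of_pos_of_neg h7 hcon
        rw [← h5] at h8
        linarith
      have h4 : 0 ≤ ∑ k, (Φ.dF k : ℚ) * y k :=
        Finset.sum_nonneg fun k _ => mul_nonneg (by positivity) (h3 k)
      have h5 : ((∑ k, Φ.dF k : ℕ) : ℚ) < ((d + 2 : ℕ) : ℚ) := by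
        exact_mod_cast not_le.1 hκ
      push_cast at h5
      rw [hy1] at h4
      push_cast at h4
      linarith
    refine ⟨fun h => absurd h hnot, fun h => absurd (psef_of_nef
      (exists_divisorial C.u_bas C.bas_Y C.adj_le C.fin_Y) h) hnot⟩

end

end Pool.Agent.Q57.TC

namespace Pool.Agent.Q57.TC

variable {d R p : ℕ} {K : Type} [Field K] [Algebra ℂ K]

/-- the coefficients from the log discrepancies -/
def cpa (ψ : (Fin (d + 2) → ℕ) → ℚ) (v : Fin (d + 2) → ℕ) : ℚ := if v = 0 then 0 else 1 - ψ v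

theorem cpa_ne {ψ : (Fin (d + 2) → ℕ) → ℚ} {v : Fin (d + 2) → ℕ} (hv : v ≠ 0) :
    cpa ψ v = 1 - ψ v := if_neg hv

theorem cpa_mul {m : Fin R → ℕ} {a : Fin R → Fin (d + 2) → ℕ} {ψ : (Fin (d + 2) → ℕ) → ℚ}
    (h : ∀ v (k : ℕ), 1 ≤ k → Pool.Agent.Y169.TH.Adm m a v → ψ (k • v) ≤ k * ψ v)
    (v : Fin (d + 2) → ℕ) (k : ℕ)
    (hk : 1 ≤ k) (hv : Pool.Agent.Y169.TH.Adm m a v) :
    1 - cpa ψ (k • v) ≤ k * (1 - cpa ψ v) := by
  have h1 : k • v ≠ 0 := by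
    intro h0
    apply hv.1
    funext t
    have h2 := congrFun h0 t
    rw [Pi.smul_apply, Pi.zero_apply, smul_eq_mul] at h2
    rcases Nat.mul_eq_zero.1 h2 with h3 | h3
    · omega
    · exact h3
  rw [cpa_ne h1, cpa_ne hv.1, sub_sub_cancel, sub_sub_cancel]
  exact h v k hk hv

theorem cpa_le {ψ : (Fin (d + 2) → ℕ) → ℚ} (h : ∀ v, 0 ≤ ψ v) (v : Fin (d + 2) → ℕ) :
    cpa ψ v ≤ 1 := by
  unfold cpa
  split_ifs
  · exact zero_le_one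
  · linarith [h v]

theorem cpa_ite {ψ : (Fin (d + 2) → ℕ) → ℚ} (h : ψ 0 = 0) (v : Fin (d + 2) → ℕ) :
    1 - ψ v = if v = 0 then 1 else cpa ψ v := by
  by_cases hv : v = 0
  · rw [if_pos hv, hv, h, sub_zero]
  · rw [if_neg hv, cpa_ne hv]

section

variable {x : Fin (d + 2) → K} {F : Fin (d + 2) → MvPolynomial (Fin (d + 2)) ℂ}
  {dF : Fin (d + 2) → ℕ} {z : Fin R → K} {M : Fin R → ℕ} {a : Fin R → Fin (d + 2) → ℕ}

/-- **The cone of the nef combinations**, for log discrepancies. -/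
theorem main_anp (hx0 : x 0 ≠ 0)
    (hbas : IsTranscendenceBasis ℂ fun b : Fin (d + 1) => x b.succ / x 0) (hd : ∀ k, 0 < dF k)
    (hh : ∀ k, (F k).IsHomogeneous (dF k)) (hS : Snc F) (hM : ∀ j, 0 < M j)
    (hz : ∀ j, z j ^ M j = ∏ k, (aeval x (F k) / x 0 ^ dF k) ^ a j k)
    (hdiv : ∀ j, M j ∣ ∑ k, a j k * dF k)
    (hgen : IntermediateField.adjoin ℂ
      (Set.range (fun b : Fin (d + 1) => x b.succ / x 0) ∪ Set.range z) = ⊤)
    (hκ : d + 2 ≤ ∑ k, dF k)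
    {ψ : Fin p → (Fin (d + 2) → ℕ) → ℚ} (hψ0 : ∀ i, ψ i 0 = 0) (hψ1 : ∀ i v, 0 ≤ ψ i v)
    (hmul : ∀ i v (r : ℕ), 1 ≤ r → Pool.Agent.Y169.TH.Adm M a v → ψ i (r • v) ≤ r * ψ i v)
    (hfg : ∃ T : Finset (Fin (d + 2) → ℕ), (∀ s ∈ T, Pool.Agent.Y169.TH.Adm M a s) ∧
      ∀ v, Pool.Agent.Y169.TH.Adm M a v →
      ∃ w : (Fin (d + 2) → ℕ) → ℚ, (∀ s, 0 ≤ w s) ∧ (∀ k, ∑ s ∈ T, w s * s k ≤ v k) ∧
        ∀ i, ψ i v ≤ ∑ s ∈ T, w s * ψ i s) {δ : Fin p → Place ℂ K → ℚ}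
    (hδ : ∀ i P, δ i P = 1 - ψ i (mul F dF x P) - lDA F dF x P) :
    ∃ (N0 : ℕ) (g : Fin N0 → Fin p →₀ ℕ) (ω : Fin N0 → (Fin (d + 1) → Derivation ℂ K K) → K)
      (BB : Finset (Finset (Fin N0))),
      (∀ b, g b ≠ 0 ∧ ω b ≠ 0 ∧ MSec (d + 1) δ (g b) (ω b)) ∧
      (∀ P : Place ℂ K, Divisorial (d + 1) P → ∃ B ∈ BB, ∀ b, b ∈ B ↔
        NV (d + 1) δ (g b) (ω b) P) ∧
      ∀ lam : Fin p → ℝ, (∀ i, 0 ≤ lam i) → (NefR (d + 1) δ lam ↔ ∀ B ∈ BB,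
        ∃ t : Fin N0 → ℝ, (∀ b, 0 ≤ t b) ∧ (∀ b, b ∉ B → t b = 0) ∧
          ∀ i, lam i = ∑ b, t b * g b i) := by
  classical
  refine main_an (c := fun i => cpa (ψ i)) hx0 hbas hd hh hS hM hz hdiv hgen hκ
    (fun i => if_pos rfl) (fun i => cpa_le (hψ1 i)) (fun i => cpa_mul (hmul i)) ?_ fun i P => ?_
  · obtain ⟨T, hT1, hT2⟩ := hfg
    refine ⟨T, hT1, fun v hv => ?_⟩
    obtain ⟨w, h1, h2, h3⟩ := hT2 v hv
    refine ⟨w, h1, h2, fun i => ?_⟩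
    rw [cpa_ne hv.1, sub_sub_cancel]
    refine (h3 i).trans (le_of_eq (Finset.sum_congr rfl fun s hs => ?_))
    rw [cpa_ne (hT1 s hs).1, sub_sub_cancel]
  · rw [hδ, cpa_ite (hψ0 i)]

/-- **One boundary**, for log discrepancies. -/
theorem main_a1p (hx0 : x 0 ≠ 0)
    (hbas : IsTranscendenceBasis ℂ fun b : Fin (d + 1) => x b.succ / x 0) (hd : ∀ k, 0 < dF k)
    (hh : ∀ k, (F k).IsHomogeneous (dF k)) (hS : Snc F) (hM : ∀ j, 0 < M j)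
    (hz : ∀ j, z j ^ M j = ∏ k, (aeval x (F k) / x 0 ^ dF k) ^ a j k)
    (hdiv : ∀ j, M j ∣ ∑ k, a j k * dF k)
    (hgen : IntermediateField.adjoin ℂ
      (Set.range (fun b : Fin (d + 1) => x b.succ / x 0) ∪ Set.range z) = ⊤)
    {ψ : (Fin (d + 2) → ℕ) → ℚ} (hψ0 : ψ 0 = 0) (hψ1 : ∀ v, 0 ≤ ψ v)
    (hmul : ∀ v (r : ℕ), 1 ≤ r → Pool.Agent.Y169.TH.Adm M a v → ψ (r • v) ≤ r * ψ v)
    (hfg : ∃ T : Finset (Fin (d + 2) → ℕ), (∀ s ∈ T, Pool.Agent.Y169.TH.Adm M a s) ∧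
      ∀ v, Pool.Agent.Y169.TH.Adm M a v →
      ∃ w : (Fin (d + 2) → ℕ) → ℚ, (∀ s, 0 ≤ w s) ∧ (∀ k, ∑ s ∈ T, w s * s k ≤ v k) ∧
        ψ v ≤ ∑ s ∈ T, w s * ψ s) {δ : Place ℂ K → ℚ}
    (hδ : ∀ P, δ P = 1 - ψ (mul F dF x P) - lDA F dF x P) :
    (BPsef (d + 1) δ → BGood (d + 1) δ) ∧ (BNef (d + 1) δ → BSemi (d + 1) δ) := by
  classical
  refine main_a1 (c := cpa ψ) hx0 hbas hd hh hS hM hz hdiv hgen
    (if_pos rfl) (cpa_le hψ1) (cpa_mul hmul) ?_ fun P => ?_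
  · obtain ⟨T, hT1, hT2⟩ := hfg
    refine ⟨T, hT1, fun v hv => ?_⟩
    obtain ⟨w, h1, h2, h3⟩ := hT2 v hv
    refine ⟨w, h1, h2, ?_⟩
    rw [cpa_ne hv.1, sub_sub_cancel]
    refine h3.trans (le_of_eq (Finset.sum_congr rfl fun s hs => ?_))
    rw [cpa_ne (hT1 s hs).1, sub_sub_cancel]
  · rw [hδ, cpa_ite hψ0]

end

end Pool.Agent.Q57.TC
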