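import Pool.Agent.Q57.TC.SetB

/-!
The geography of models and the nef cone, for covers of products of projective spaces, with the
coefficients of the pullbacks of log canonical divisors: the main theorems.
-/

set_option autoImplicit false
set_option linter.overlappingInstances false
set_option linter.unusedSectionVars false
set_option maxHeartbeats 1000000

open FF MvPolynomial Pool.Agent.W603.LV Pool.Agent.W602.GT Pool.Agent.W602.Cov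
open Pool.Agent.TH756.PR Pool.Agent.TH122.AB Pool.Agent.TH756.PN
open Pool.Agent.Y169.CH Pool.Agent.Q57.TP Pool.Agent.Q57.TQ Pool.Agent.Q57.GM
open Pool.Agent.Q57.GH Pool.Agent.Q57.FG Pool.Agent.Q57.FH Pool.Agent.Q57.GG Pool.Agent.Q57.GE
open Pool.Agent.Q57.FT

namespace Pool.Agent.Q57.TC

variable {r N R p : ℕ} {n : Fin r → ℕ} {K : Type} [Field K] [Algebra ℂ K]

/-- **Several boundaries.** -/
theorem main_c (hr : 1 ≤ r) (hn : ∀ i, 1 ≤ n i) (hN : N = ∑ i, n i)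
    {F : ∀ i, MvPolynomial (Fin (n i + 1)) ℂ} {d : Fin r → ℕ} (hd : ∀ i, 1 ≤ d i)
    (hh : ∀ i, (F i).IsHomogeneous (d i)) (hs : ∀ i, SmF (F i))
    {x : ∀ i, Fin (n i + 1) → K} (hx0 : ∀ i, x i 0 ≠ 0)
    (hbas : IsTranscendenceBasis ℂ (aff x)) {m : Fin R → ℕ} (hm : ∀ j, 0 < m j)
    {a : Fin R → Fin r → ℕ} (hdiv : ∀ j i, m j ∣ a j i * d i) {z : Fin R → K}
    (hz : ∀ j, z j ^ m j = ∏ i, (aeval (x i) (F i) / x i 0 ^ d i) ^ a j i)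
    (hgen : IntermediateField.adjoin ℂ (Set.range (aff x) ∪ Set.range z) = ⊤)
    {c : Fin p → (Fin r → ℕ) → ℚ} (hc0 : ∀ i, c i 0 = 0) (hc1 : ∀ i v, c i v ≤ 1)
    (hmul : ∀ i v (k : ℕ), 1 ≤ k → Adm m a v → 1 - c i (k • v) ≤ k * (1 - c i v))
    (hfg : ∃ T : Finset (Fin r → ℕ), (∀ s ∈ T, Adm m a s) ∧ ∀ v, Adm m a v →
      ∃ w : (Fin r → ℕ) → ℚ, (∀ s, 0 ≤ w s) ∧ (∀ k, ∑ s ∈ T, w s * s k ≤ v k) ∧
        ∀ i, 1 - c i v ≤ ∑ s ∈ T, w s * (1 - c i s)) {δ : Fin p → Place ℂ K → ℚ}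
    (hδ : ∀ i P, δ i P = (if mulQ F d x P = 0 then 1 else c i (mulQ F d x P)) - lD F d x P) :
    ∃ (N0 : ℕ) (g : Fin N0 → Fin p →₀ ℕ) (ω : Fin N0 → (Fin N → Derivation ℂ K K) → K),
      (∀ b, g b ≠ 0 ∧ ω b ≠ 0 ∧ MSec N δ (g b) (ω b)) ∧
      (∀ (P : Place ℂ K) (S : Finset K) (D : Fin N → Derivation ℂ K K), ∃ C1 : ℕ,
        ∀ (μ : Fin p →₀ ℕ) (j : ℕ) (η : (Fin N → Derivation ℂ K K) → K), μ ≠ 0 →
          ASec N δ S μ j η → η D = 0 ∨ ((∀ b, ω b D ≠ 0) ∧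
            ∃ e : Fin N0 → ℕ,
              (∀ i, |∑ b, (e b : ℤ) * g b i - μ i| ≤ C1 * (j + 1)) ∧
              ∑ b, (e b : ℤ) * P.ord (ω b D) ≤ P.ord (η D) + C1 * (j + 1))) ∧
      (∀ lam : Fin p → ℝ, (∀ i, 0 ≤ lam i) →
        (PsefR N δ lam ↔ ∃ t : Fin N0 → ℝ, (∀ b, 0 ≤ t b) ∧
          ∀ i, lam i = ∑ b, t b * g b i)) ∧
      ∀ lam : Fin p → ℝ, (∀ i, 0 ≤ lam i) → (NefR N δ lam ↔
        ∀ P : Place ℂ K, Divisorial N P →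
        ∃ t : Fin N0 → ℝ, (∀ b, 0 ≤ t b) ∧ (∀ i, lam i = ∑ b, t b * g b i) ∧ ∀ b, t b ≠ 0 →
          NV N δ (g b) (ω b) P) := by
  classical
  obtain ⟨N0, g, ω, h1, h2, ⟨P0, -⟩, w, u, D0, hu, h3, h4⟩ :=
    main_b hr hn hN hd hh hs hx0 hbas hm hdiv hz hgen hc0 hc1 hmul hfg hδ
  have hdet : ∀ (m : ℕ) (η : (Fin N → Derivation ℂ K K) → K), IsPluri m η → η ≠ 0 →
      η D0 ≠ 0 := by
    intro m η hη h0 h5
    apply h0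
    funext D
    have h6 := h4 m η hη D
    rw [h5, mul_zero] at h6
    exact (mul_eq_zero.1 h6).resolve_right (pow_ne_zero _ hu)
  refine ⟨N0, g, ω, fun b => ⟨(h1 b).1, fun h0 => h3 b (congrFun h0 D0), (h1 b).2⟩, h2, ?_,
    fun lam hlam => ⟨fun hn P hP => semi_of_nefR hu h4 h1 h2 lam hlam hn P hP,
      fun h => nefR_of hu h4 h1 lam h⟩⟩
  refine psefR_iff h1 (P := P0) h3 hdet fun S => ?_
  obtain ⟨C1, hC1⟩ := h2 P0 S D0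
  refine ⟨C1, fun μ j η hμ hη => (hC1 μ j η hμ hη).imp id fun h => ?_⟩
  obtain ⟨-, e, he, -⟩ := h
  exact ⟨e, he⟩

/-- **One boundary.** -/
theorem main_e (hr : 1 ≤ r) (hn : ∀ i, 1 ≤ n i) (hN : N = ∑ i, n i)
    {F : ∀ i, MvPolynomial (Fin (n i + 1)) ℂ} {d : Fin r → ℕ} (hd : ∀ i, 1 ≤ d i)
    (hh : ∀ i, (F i).IsHomogeneous (d i)) (hs : ∀ i, SmF (F i))
    {x : ∀ i, Fin (n i + 1) → K} (hx0 : ∀ i, x i 0 ≠ 0)
    (hbas : IsTranscendenceBasis ℂ (aff x)) {m : Fin R → ℕ} (hm : ∀ j, 0 < m j)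
    {a : Fin R → Fin r → ℕ} (hdiv : ∀ j i, m j ∣ a j i * d i) {z : Fin R → K}
    (hz : ∀ j, z j ^ m j = ∏ i, (aeval (x i) (F i) / x i 0 ^ d i) ^ a j i)
    (hgen : IntermediateField.adjoin ℂ (Set.range (aff x) ∪ Set.range z) = ⊤)
    {c : (Fin r → ℕ) → ℚ} (hc0 : c 0 = 0) (hc1 : ∀ v, c v ≤ 1)
    (hmul : ∀ v (k : ℕ), 1 ≤ k → Adm m a v → 1 - c (k • v) ≤ k * (1 - c v))
    (hfg : ∃ T : Finset (Fin r → ℕ), (∀ s ∈ T, Adm m a s) ∧ ∀ v, Adm m a v →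
      ∃ w : (Fin r → ℕ) → ℚ, (∀ s, 0 ≤ w s) ∧ (∀ k, ∑ s ∈ T, w s * s k ≤ v k) ∧
        1 - c v ≤ ∑ s ∈ T, w s * (1 - c s)) {δ : Place ℂ K → ℚ}
    (hδ : ∀ P, δ P = (if mulQ F d x P = 0 then 1 else c (mulQ F d x P)) - lD F d x P) :
    (BPsef N δ → BGood N δ) ∧ (BNef N δ → BSemi N δ) := by
  classical
  obtain ⟨N0, g, ω, h1, h2, h5, w, u, D0, hu, h3, h4⟩ :=
    main_b (p := 1) (c := fun _ => c) (δ := fun _ => δ) hr hn hN hd hh hs hx0 hbas hm hdiv hz hgen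
      (fun _ => hc0) (fun _ => hc1) (fun _ => hmul) (by
        obtain ⟨T, hT1, hT2⟩ := hfg
        refine ⟨T, hT1, fun v hv => ?_⟩
        obtain ⟨w, h1, h2, h3⟩ := hT2 v hv
        exact ⟨w, h1, h2, fun _ => h3⟩) (fun _ => hδ)
  refine one_of_geo hu h4 h5 h1 h3 (fun P S => ?_) (psef_of_nef h5)
  obtain ⟨C1, hC1⟩ := h2 P S D0
  refine ⟨C1, fun μ j η hμ hη => (hC1 μ j η hμ hη).imp id fun h => ?_⟩
  exact h.2

end Pool.Agent.Q57.TC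

namespace Pool.Agent.Q57.TC

variable {r N R p : ℕ} {n : Fin r → ℕ} {K : Type} [Field K] [Algebra ℂ K]

/-- the coefficients from the log discrepancies -/
def cps (ψ : (Fin r → ℕ) → ℚ) (v : Fin r → ℕ) : ℚ := if v = 0 then 0 else 1 - ψ v

theorem cps_ne {ψ : (Fin r → ℕ) → ℚ} {v : Fin r → ℕ} (hv : v ≠ 0) : cps ψ v = 1 - ψ v :=
  if_neg hv

theorem cps_mul {m : Fin R → ℕ} {a : Fin R → Fin r → ℕ} {ψ : (Fin r → ℕ) → ℚ}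
    (h : ∀ v (k : ℕ), 1 ≤ k → Adm m a v → ψ (k • v) ≤ k * ψ v) (v : Fin r → ℕ) (k : ℕ)
    (hk : 1 ≤ k) (hv : Adm m a v) : 1 - cps ψ (k • v) ≤ k * (1 - cps ψ v) := by
  have h1 : k • v ≠ 0 := by
    intro h0
    apply hv.1
    funext t
    have h2 := congrFun h0 t
    rw [Pi.smul_apply, Pi.zero_apply, smul_eq_mul] at h2
    rcases Nat.mul_eq_zero.1 h2 with h3 | h3
    · omega
    · exact h3
  rw [cps_ne h1, cps_ne hv.1, sub_sub_cancel, sub_sub_cancel]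
  exact h v k hk hv

/-- **Several boundaries**, given by their log discrepancies. -/
theorem main_ps (hr : 1 ≤ r) (hn : ∀ i, 1 ≤ n i) (hN : N = ∑ i, n i)
    {F : ∀ i, MvPolynomial (Fin (n i + 1)) ℂ} {d : Fin r → ℕ} (hd : ∀ i, 1 ≤ d i)
    (hh : ∀ i, (F i).IsHomogeneous (d i)) (hs : ∀ i, SmF (F i))
    {x : ∀ i, Fin (n i + 1) → K} (hx0 : ∀ i, x i 0 ≠ 0)
    (hbas : IsTranscendenceBasis ℂ (aff x)) {m : Fin R → ℕ} (hm : ∀ j, 0 < m j)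
    {a : Fin R → Fin r → ℕ} (hdiv : ∀ j i, m j ∣ a j i * d i) {z : Fin R → K}
    (hz : ∀ j, z j ^ m j = ∏ i, (aeval (x i) (F i) / x i 0 ^ d i) ^ a j i)
    (hgen : IntermediateField.adjoin ℂ (Set.range (aff x) ∪ Set.range z) = ⊤)
    {ψ : Fin p → (Fin r → ℕ) → ℚ} (hψ0 : ∀ i, ψ i 0 = 0) (hψ1 : ∀ i v, 0 ≤ ψ i v)
    (hmul : ∀ i v (k : ℕ), 1 ≤ k → Adm m a v → ψ i (k • v) ≤ k * ψ i v)
    (hfg : ∃ T : Finset (Fin r → ℕ), (∀ s ∈ T, Adm m a s) ∧ ∀ v, Adm m a v →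
      ∃ w : (Fin r → ℕ) → ℚ, (∀ s, 0 ≤ w s) ∧ (∀ k, ∑ s ∈ T, w s * s k ≤ v k) ∧
        ∀ i, ψ i v ≤ ∑ s ∈ T, w s * ψ i s) {δ : Fin p → Place ℂ K → ℚ}
    (hδ : ∀ i P, δ i P = 1 - ψ i (mulQ F d x P) - lD F d x P) :
    ∃ (N0 : ℕ) (g : Fin N0 → Fin p →₀ ℕ) (ω : Fin N0 → (Fin N → Derivation ℂ K K) → K),
      (∀ b, g b ≠ 0 ∧ ω b ≠ 0 ∧ MSec N δ (g b) (ω b)) ∧
      (∀ (P : Place ℂ K) (S : Finset K) (D : Fin N → Derivation ℂ K K), ∃ C1 : ℕ,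
        ∀ (μ : Fin p →₀ ℕ) (j : ℕ) (η : (Fin N → Derivation ℂ K K) → K), μ ≠ 0 →
          ASec N δ S μ j η → η D = 0 ∨ ((∀ b, ω b D ≠ 0) ∧
            ∃ e : Fin N0 → ℕ,
              (∀ i, |∑ b, (e b : ℤ) * g b i - μ i| ≤ C1 * (j + 1)) ∧
              ∑ b, (e b : ℤ) * P.ord (ω b D) ≤ P.ord (η D) + C1 * (j + 1))) ∧
      (∀ lam : Fin p → ℝ, (∀ i, 0 ≤ lam i) →
        (PsefR N δ lam ↔ ∃ t : Fin N0 → ℝ, (∀ b, 0 ≤ t b) ∧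
          ∀ i, lam i = ∑ b, t b * g b i)) ∧
      ∀ lam : Fin p → ℝ, (∀ i, 0 ≤ lam i) → (NefR N δ lam ↔
        ∀ P : Place ℂ K, Divisorial N P →
        ∃ t : Fin N0 → ℝ, (∀ b, 0 ≤ t b) ∧ (∀ i, lam i = ∑ b, t b * g b i) ∧ ∀ b, t b ≠ 0 →
          NV N δ (g b) (ω b) P) := by
  classical
  refine main_c (c := fun i => cps (ψ i)) hr hn hN hd hh hs hx0 hbas hm hdiv hz hgen
    (fun i => if_pos rfl) (fun i v => ?_) (fun i => cps_mul (hmul i)) ?_ (fun i P => ?_)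
  · unfold cps
    split_ifs
    · exact zero_le_one
    · linarith [hψ1 i v]
  · obtain ⟨T, hT1, hT2⟩ := hfg
    refine ⟨T, hT1, fun v hv => ?_⟩
    obtain ⟨w, h1, h2, h3⟩ := hT2 v hv
    refine ⟨w, h1, h2, fun i => ?_⟩
    rw [cps_ne hv.1, sub_sub_cancel]
    refine (h3 i).trans (le_of_eq (Finset.sum_congr rfl fun s hs => ?_))
    rw [cps_ne (hT1 s hs).1, sub_sub_cancel]
  · rw [hδ]
    by_cases hv : mulQ F d x P = 0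
    · rw [if_pos hv, hv, hψ0, sub_zero]
    · rw [if_neg hv, cps_ne hv]

/-- **One boundary**, given by its log discrepancies. -/
theorem main_ps1 (hr : 1 ≤ r) (hn : ∀ i, 1 ≤ n i) (hN : N = ∑ i, n i)
    {F : ∀ i, MvPolynomial (Fin (n i + 1)) ℂ} {d : Fin r → ℕ} (hd : ∀ i, 1 ≤ d i)
    (hh : ∀ i, (F i).IsHomogeneous (d i)) (hs : ∀ i, SmF (F i))
    {x : ∀ i, Fin (n i + 1) → K} (hx0 : ∀ i, x i 0 ≠ 0)
    (hbas : IsTranscendenceBasis ℂ (aff x)) {m : Fin R → ℕ} (hm : ∀ j, 0 < m j)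
    {a : Fin R → Fin r → ℕ} (hdiv : ∀ j i, m j ∣ a j i * d i) {z : Fin R → K}
    (hz : ∀ j, z j ^ m j = ∏ i, (aeval (x i) (F i) / x i 0 ^ d i) ^ a j i)
    (hgen : IntermediateField.adjoin ℂ (Set.range (aff x) ∪ Set.range z) = ⊤)
    {ψ : (Fin r → ℕ) → ℚ} (hψ0 : ψ 0 = 0) (hψ1 : ∀ v, 0 ≤ ψ v)
    (hmul : ∀ v (k : ℕ), 1 ≤ k → Adm m a v → ψ (k • v) ≤ k * ψ v)
    (hfg : ∃ T : Finset (Fin r → ℕ), (∀ s ∈ T, Adm m a s) ∧ ∀ v, Adm m a v →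
      ∃ w : (Fin r → ℕ) → ℚ, (∀ s, 0 ≤ w s) ∧ (∀ k, ∑ s ∈ T, w s * s k ≤ v k) ∧
        ψ v ≤ ∑ s ∈ T, w s * ψ s) {δ : Place ℂ K → ℚ}
    (hδ : ∀ P, δ P = 1 - ψ (mulQ F d x P) - lD F d x P) :
    (BPsef N δ → BGood N δ) ∧ (BNef N δ → BSemi N δ) := by
  classical
  refine main_e (c := cps ψ) hr hn hN hd hh hs hx0 hbas hm hdiv hz hgen (if_pos rfl) (fun v => ?_)
    (cps_mul hmul) ?_ (fun P => ?_)
  · unfold cps
    split_ifs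
    · exact zero_le_one
    · linarith [hψ1 v]
  · obtain ⟨T, hT1, hT2⟩ := hfg
    refine ⟨T, hT1, fun v hv => ?_⟩
    obtain ⟨w, h1, h2, h3⟩ := hT2 v hv
    refine ⟨w, h1, h2, ?_⟩
    rw [cps_ne hv.1, sub_sub_cancel]
    refine h3.trans (le_of_eq (Finset.sum_congr rfl fun s hs => ?_))
    rw [cps_ne (hT1 s hs).1, sub_sub_cancel]
  · rw [hδ]
    by_cases hv : mulQ F d x P = 0
    · rw [if_pos hv, hv, hψ0, sub_zero]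
    · rw [if_neg hv, cps_ne hv]

end Pool.Agent.Q57.TC
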