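import Pool.Agent.Q57.TP.Mak
import Pool.Agent.W930.CG.BWB

/-!
The cover of the projective space, in coordinates in which the hypersurfaces are monic, with the
canonical form (following `Pool.Agent.Q57.TP.Mak`).
-/

set_option autoImplicit false
set_option linter.overlappingInstances false
set_option linter.unusedSectionVars false
set_option maxHeartbeats 1000000

open FF MvPolynomial Pool.Agent.W603.LV Pool.Agent.W602.GT Pool.Agent.W602.Cov
open Pool.Agent.W602.Cov.G Pool.Agent.TH152.AC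
open Pool.Agent.TH122.AB Pool.Agent.Y169.CH Pool.Agent.Y169.TH Pool.Agent.W619.PQ
open Pool.Agent.Q57.TP

namespace Pool.Agent.Q57.TC

variable {d R : ℕ} {K : Type} [Field K] [Algebra ℂ K]

/-- **The cover.** -/
theorem exists_cv_o {x : Fin (d + 2) → K} (hx0 : x 0 ≠ 0)
    (hbas : IsTranscendenceBasis ℂ fun b : Fin (d + 1) => x b.succ / x 0)
    {F : Fin (d + 2) → MvPolynomial (Fin (d + 2)) ℂ} {dF : Fin (d + 2) → ℕ} (hd : ∀ k, 0 < dF k)
    (hh : ∀ k, (F k).IsHomogeneous (dF k)) (hS : Snc F) {z : Fin R → K} {M : Fin R → ℕ}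
    (hM : ∀ j, 0 < M j) {a : Fin R → Fin (d + 2) → ℕ}
    (hz : ∀ j, z j ^ M j = ∏ k, (aeval x (F k) / x 0 ^ dF k) ^ a j k)
    (hdiv : ∀ j, M j ∣ ∑ k, a j k * dF k)
    (hgen : IntermediateField.adjoin ℂ
      (Set.range (fun b : Fin (d + 1) => x b.succ / x 0) ∪ Set.range z) = ⊤) :
    ∃ Φ : Arr (d + 1), Φ.dF = dF ∧ ∃ C : Cv Φ K R, C.M = M ∧ C.a = a ∧
      ∃ lam : K, lam ≠ 0 ∧ (∀ D, bw D C.x = lam * bw D x) ∧
      ∀ P α v, Dat P Φ.F Φ.dF C.x α v → v = mul F dF x P ∧
        P.ord lam = ((d : ℤ) + 2) * (α - minO x P) := by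
  classical
  obtain ⟨q, hq, hqc⟩ := exists_sh2 hh (snc_ne hS)
  obtain ⟨x', hx'⟩ : ∃ x' : Fin (d + 2) → K, x' = shx q x := ⟨_, rfl⟩
  obtain ⟨F', hF'⟩ : ∃ F' : Fin (d + 2) → MvPolynomial (Fin (d + 2)) ℂ,
    F' = fun k => shF q 1 (F k) := ⟨_, rfl⟩
  have hxx' : ∀ j, x j = x' j + algebraMap ℂ K (q j) * x' (Fin.last (d + 1)) := by
    intro j
    rw [hx', shx_last hq]
    unfold shx
    ring
  have hev : ∀ k, aeval x' (F' k) = aeval x (F k) := fun k => by
    rw [hx', hF']
    have h1 := aeval_shF hq x 1 (F k)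
    rwa [map_one, one_mul] at h1
  have hx'0 : x' 0 ≠ 0 := by
    intro h0
    rw [hx'] at h0
    have h1 : aeval (fun b : Fin (d + 1) => x b.succ / x 0) (1 - C (q 0) * X (Fin.last d)) = 0 := by
      rw [map_sub, map_one, map_mul, aeval_C, aeval_X]
      have h3 : x 0 - algebraMap ℂ K (q 0) * x (Fin.last (d + 1)) = 0 := h0
      have h4 : (Fin.last d).succ = Fin.last (d + 1) := rfl
      rw [h4]
      field_simp
      linear_combination h3
    have h2 := (injective_iff_map_eq_zero _).1 hbas.1 _ h1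
    have h3 := congrArg (eval (0 : Fin (d + 1) → ℂ)) h2
    simp at h3
  obtain ⟨ρ, hρ⟩ : ∃ ρ : K, ρ = x 0 / x' 0 := ⟨_, rfl⟩
  have hρ0 : ρ ≠ 0 := by
    rw [hρ]
    exact div_ne_zero hx0 hx'0
  have hkey : ∀ L : IntermediateField ℂ K, (∀ b : Fin (d + 1), x' b.succ / x' 0 ∈ L) → ∀ j,
      x j / x' 0 ∈ L := by
    intro L hL j
    have h1 : ∀ j, x' j / x' 0 ∈ L := by
      intro j
      refine Fin.cases ?_ (fun l => hL l) j
      rw [div_self hx'0]
      exact L.one_mem
    have h2 : x j / x' 0 = x' j / x' 0 +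
        algebraMap ℂ K (q j) * (x' (Fin.last (d + 1)) / x' 0) := by
      rw [hxx' j]
      ring
    rw [h2]
    exact L.add_mem (h1 j) (L.mul_mem (L.algebraMap_mem _) (h1 _))
  have hkey2 : ∀ L : IntermediateField ℂ K, (∀ b : Fin (d + 1), x' b.succ / x' 0 ∈ L) →
      ∀ b : Fin (d + 1), x b.succ / x 0 ∈ L := by
    intro L hL b
    have h1 : x b.succ / x 0 = (x b.succ / x' 0) / (x 0 / x' 0) :=
      (div_div_div_cancel_right₀ hx'0 _ _).symm
    rw [h1]
    exact L.div_mem (hkey L hL _) (hkey L hL _)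
  obtain ⟨X, hX⟩ : ∃ X : Fin (d + 2) → K, X = fun j => x' j / x' 0 := ⟨_, rfl⟩
  have hX0 : X 0 = 1 := by
    rw [hX]
    exact div_self hx'0
  have hXs : ∀ b : Fin (d + 1), X b.succ = x' b.succ / x' 0 := fun b => by rw [hX]
  have hbas' : IsTranscendenceBasis ℂ fun b : Fin (d + 1) => X b.succ := by
    refine basis_of_le hbas ?_
    rw [IntermediateField.adjoin_le_iff]
    rintro _ ⟨b, rfl⟩
    refine hkey2 _ (fun b' => ?_) b
    rw [← hXs]
    exact IntermediateField.subset_adjoin ℂ _ ⟨b', rfl⟩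
  have hFX : ∀ k, aeval X (F' k) = aeval x (F k) / x' 0 ^ dF k := by
    intro k
    have h1 : (F' k).IsHomogeneous (dF k) := by
      rw [hF']
      exact shF_hom _ _ (hh k)
    rw [eq_div_iff (pow_ne_zero _ hx'0), mul_comm, ← aeval_smul_form h1, ← hev]
    congr 2
    funext l
    rw [hX, mul_div_cancel₀ _ hx'0]
  obtain ⟨s, hs⟩ : ∃ s : Fin R → ℕ, s = fun j => (∑ k, a j k * dF k) / M j := ⟨_, rfl⟩
  have hsM : ∀ j, s j * M j = ∑ k, a j k * dF k := fun j => by
    rw [hs]
    exact Nat.div_mul_cancel (hdiv j)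
  let Φ : Arr (d + 1) :=
    { F := F'
      dF := dF
      hd := hd
      hh := fun k => by
        rw [hF']
        exact shF_hom _ _ (hh k)
      hS := by
        rw [hF']
        exact snc_sh hq hS
      hI := fun k => ⟨Finsupp.single (Fin.last (d + 1)) (dF k), by
        rw [mem_support_iff, hF']
        exact hqc k, by
        rw [Finsupp.single_apply, if_neg]
        exact (Fin.succ_ne_zero (Fin.last d))⟩ }
  obtain ⟨cm, hcm⟩ : ∃ cm : Matrix (Fin (d + 2)) (Fin (d + 2)) ℂ, cm = Matrix.of fun i j =>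
    (if i = j then 1 else 0) - q i * (if j = Fin.last (d + 1) then 1 else 0) := ⟨_, rfl⟩
  obtain ⟨cm', hcm'⟩ : ∃ cm' : Matrix (Fin (d + 2)) (Fin (d + 2)) ℂ, cm' = Matrix.of fun i j =>
    (if i = j then 1 else 0) + q i * (if j = Fin.last (d + 1) then 1 else 0) := ⟨_, rfl⟩
  have hb1 : ∀ D, bw D x' = algebraMap ℂ K cm.det * bw D x := by
    intro D
    rw [← (bwa (d + 1) K).2.2 cm D x]
    congr 1
    funext i
    have h1 : ∀ j, algebraMap ℂ K (cm i j) * x j = (if i = j then x j else 0) -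
        (if j = Fin.last (d + 1) then algebraMap ℂ K (q i) * x j else 0) := by
      intro j
      rw [hcm, Matrix.of_apply]
      split_ifs <;> simp <;> ring
    rw [Finset.sum_congr rfl fun j _ => h1 j, Finset.sum_sub_distrib, Finset.sum_ite_eq,
      Finset.sum_ite_eq', if_pos (Finset.mem_univ _), if_pos (Finset.mem_univ _), hx']
    rfl
  have hb2 : ∀ D, bw D x = algebraMap ℂ K cm'.det * bw D x' := by
    intro D
    rw [← (bwa (d + 1) K).2.2 cm' D x']
    congr 1
    funext i
    have h1 : ∀ j, algebraMap ℂ K (cm' i j) * x' j = (if i = j then x' j else 0) +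
        (if j = Fin.last (d + 1) then algebraMap ℂ K (q i) * x' j else 0) := by
      intro j
      rw [hcm', Matrix.of_apply]
      split_ifs <;> simp <;> ring
    rw [Finset.sum_congr rfl fun j _ => h1 j, Finset.sum_add_distrib, Finset.sum_ite_eq,
      Finset.sum_ite_eq', if_pos (Finset.mem_univ _), if_pos (Finset.mem_univ _)]
    exact hxx' i
  have hcm0 : cm.det ≠ 0 := by
    intro h0
    obtain ⟨D, hD⟩ := (Pool.Agent.W930.CG.main bwa (d + 1) K).2.2 x hx0 hbas
    apply hD
    rw [hb2 D, hb1 D, h0, map_zero, zero_mul, mul_zero]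
  obtain ⟨lam, hlam⟩ : ∃ lam : K, lam = (x' 0)⁻¹ ^ (d + 2) * algebraMap ℂ K cm.det := ⟨_, rfl⟩
  have hcmK : algebraMap ℂ K cm.det ≠ 0 := by
    rw [Ne, map_eq_zero]
    exact hcm0
  have hlam0 : lam ≠ 0 := by
    rw [hlam]
    exact mul_ne_zero (pow_ne_zero _ (inv_ne_zero hx'0)) hcmK
  have hlamo : ∀ P : Place ℂ K, P.ord lam = - (((d : ℤ) + 2) * P.ord (x' 0)) := by
    intro P
    rw [hlam, P.ord_mul (pow_ne_zero _ (inv_ne_zero hx'0)) hcmK, P.ord_pow, P.ord_inv,
      P.ord_const hcm0]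
    push_cast
    ring
  refine ⟨Φ, rfl, ⟨X, hX0, hbas', fun j => z j * ρ ^ s j, M, hM, a, fun j => ?_, hdiv, ?_⟩, rfl, rfl,
    lam, hlam0, fun D => ?_, ?_⟩
  · change (z j * ρ ^ s j) ^ M j = ∏ k, aeval X (F' k) ^ a j k
    rw [mul_pow, hz, ← pow_mul, hsM, ← Finset.prod_pow_eq_pow_sum, ← Finset.prod_mul_distrib]
    refine Finset.prod_congr rfl fun k _ => ?_
    rw [hFX, mul_comm (a j k), pow_mul ρ, ← mul_pow, hρ]
    congr 1
    rw [div_pow]
    field_simp
  · rw [eq_top_iff, ← hgen, IntermediateField.adjoin_le_iff]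
    obtain ⟨L, hL⟩ : ∃ L, L = IntermediateField.adjoin ℂ
      (Set.range (fun b : Fin (d + 1) => X b.succ) ∪ Set.range fun j => z j * ρ ^ s j) := ⟨_, rfl⟩
    rw [← hL]
    have hu : ∀ b : Fin (d + 1), x' b.succ / x' 0 ∈ L := fun b => by
      rw [hL, ← hXs]
      exact IntermediateField.subset_adjoin ℂ _ (Or.inl ⟨b, rfl⟩)
    rintro _ (⟨b, rfl⟩ | ⟨j, rfl⟩)
    · exact hkey2 L hu b
    · have h1 : z j * ρ ^ s j ∈ L := by
        rw [hL]
        exact IntermediateField.subset_adjoin ℂ _ (Or.inr ⟨j, rfl⟩)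
      have h2 : ρ ^ s j ∈ L := by
        have h3 : ρ ∈ L := by
          rw [hρ]
          exact hkey L hu 0
        exact pow_mem h3 _
      have h3 := L.div_mem h1 h2
      rwa [mul_div_cancel_right₀ _ (pow_ne_zero _ hρ0)] at h3
  · change bw D X = _
    rw [hlam, mul_assoc, ← hb1, ← (bwa (d + 1) K).1 D (x' 0)⁻¹ x']
    congr 1
    funext j
    rw [hX]
    exact div_eq_inv_mul _ _
  · intro P α v hdat
    obtain ⟨hdx, ha1, ⟨j0, hj0⟩, hdF, hdv⟩ := hdat
    have hxne : ∀ j, x j ≠ 0 := by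
      intro j
      refine Fin.cases hx0 (fun b => ?_) j
      intro h0
      have h1 := hbas.1.ne_zero b
      rw [h0, zero_div] at h1
      exact h1 rfl
    have hx'ne : ∀ j, x' j ≠ 0 := by
      intro j h0
      apply hdx j
      change X j = 0
      rw [hX]
      dsimp only
      rw [h0, zero_div]
    have hmin : minO x P = minO x' P := by
      have hx'x : ∀ j, x' j = x j - algebraMap ℂ K (q j) * x (Fin.last (d + 1)) := by
        intro j
        have h1 := hxx' (Fin.last (d + 1))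
        rw [hq, map_zero, zero_mul, add_zero] at h1
        rw [hxx' j, h1]
        ring
      apply le_antisymm
      · refine Finset.le_inf' _ _ fun j _ => ?_
        have h1 : Ge P (minO x P) (x' j) := by
          rw [hx'x j]
          refine Ge.sub (Or.inr (minO_le x P j)) ?_
          have h2 := (ge_const P (q j)).mul (Or.inr (minO_le x P (Fin.last (d + 1))) :
            Ge P (minO x P) (x (Fin.last (d + 1))))
          simpa using h2
        exact h1.resolve_left (hx'ne j)
      · refine Finset.le_inf' _ _ fun j _ => ?_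
        have h1 : Ge P (minO x' P) (x j) := by
          rw [hxx' j]
          refine Ge.add (Or.inr (minO_le x' P j)) ?_
          have h2 := (ge_const P (q j)).mul (Or.inr (minO_le x' P (Fin.last (d + 1))) :
            Ge P (minO x' P) (x' (Fin.last (d + 1))))
          simpa using h2
        exact h1.resolve_left (hxne j)
    have hXo : ∀ l, P.ord (X l) = P.ord (x' l) - P.ord (x' 0) := by
      intro l
      rw [hX]
      dsimp only
      rw [P.ord_div (hx'ne l) hx'0]
    have hα : α = minO x' P - P.ord (x' 0) := by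
      apply le_antisymm
      · obtain ⟨l, -, hl⟩ := Finset.exists_mem_eq_inf' (Finset.univ_nonempty (α := Fin (d + 2)))
          fun j => P.ord (x' j)
        have h1 := ha1 l
        change α ≤ P.ord (X l) at h1
        rw [hXo] at h1
        unfold minO
        rw [hl]
        exact h1
      · rw [← hj0]
        change minO x' P - P.ord (x' 0) ≤ P.ord (X j0)
        rw [hXo]
        have := minO_le x' P j0
        linarith
    refine ⟨?_, by
      rw [hlamo, hα, hmin]
      ring⟩
    funext k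
    have h1 := hdv k
    change P.ord (aeval X (F' k)) = dF k * α + v k at h1
    rw [hFX, P.ord_div (by
      rw [← hev]
      intro h0
      apply hdF k
      change aeval X (F' k) = 0
      rw [hFX, ← hev, h0, zero_div]) (pow_ne_zero _ hx'0), P.ord_pow] at h1
    unfold mul
    rw [hmin]
    have h2 : P.ord (aeval x (F k)) - dF k * minO x' P = v k := by
      rw [hα] at h1
      linarith
    rw [h2, Int.toNat_natCast]

end Pool.Agent.Q57.TC
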