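import Pool.Agent.Q57.TC.TruA

/-!
Divisorial places with given multiplicities, for covers of the projective space.
-/

set_option autoImplicit false
set_option linter.overlappingInstances false
set_option linter.unusedSectionVars false
set_option maxHeartbeats 1000000

open FF MvPolynomial IntermediateField Pool.Agent.W603.LV Pool.Agent.W619.PQ
open Pool.Agent.W619.TW Pool.Agent.W602.GT Pool.Agent.TH122.AB Pool.Agent.TH756.PN
open Pool.Agent.Y169.CH Pool.Agent.W602.Cov.G Pool.Agent.Y169.TH Pool.Agent.Q57.TP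
open Pool.Agent.Q57.GM

namespace Pool.Agent.Q57.TC

variable {d : ℕ} {Φ : Arr (d + 1)} {K : Type} [Field K] [Algebra ℂ K] {R : ℕ} (C : Cv Φ K R)

/-- there is a divisorial place whose vector of multiplicities is on a given ray -/
theorem exists_place_a (X : C.Dir) :
    ∃ (P : Place ℂ K) (α : ℤ) (vv : Fin (d + 2) → ℕ) (r' : ℕ), Divisorial (d + 1) P ∧
      Dat P Φ.F Φ.dF C.x α vv ∧ Pool.Agent.Y169.TH.Adm C.M C.a vv ∧ 1 ≤ r' ∧ X.v = r' • vv := by
  classical
  obtain ⟨K', iF, iA, iK, hT, G0, G, fG0, fG, hGG, a1, a2, a3, a4, b1, b2, b3, b4, Y, X', hY, hX,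
    hYK, hXZ, hbX⟩ := exists_closure2 C.u_bas C.bas_Y C.adj_le C.fin_Y
  obtain ⟨DY, hDY0⟩ := exists_dual C.bas_Y
  have hDY : ∀ i j, DY i (C.Y j) = if i = j then 1 else 0 := by
    intro i j
    have h1 := congrFun (congrFun hDY0 i) j
    rw [Matrix.of_apply, Matrix.one_apply] at h1
    exact h1
  have hYK' : ∀ j, (Y j : K') = algebraMap K K' (C.Y j) := by
    intro j
    rw [← hYK, ← IsScalarTower.algebraMap_apply (fixedField G0) K K']
    rfl
  obtain ⟨v, hv⟩ : ∃ v : Place ℂ (fixedField G0), ∀ P : MvPolynomial (Fin (d + 1)) ℂ, P ≠ 0 →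
      v.ord (aeval Y P) = zord X.lam P := exists_zmono hY _ X.hlam
  obtain ⟨w, e, I, hw, hIc, hI⟩ := exists_inertia G0 v
  have hg1 : (1 : K' ≃ₐ[ℂ] K') ∈ G0 := one_mem _
  obtain ⟨P, e1, e2, h1, h2, he⟩ := exists_restr (K := K) (over_comp hw hg1)
  obtain ⟨b0, hb0⟩ := X.ne
  obtain ⟨α, vv, hα, hdat⟩ := C.exists_dat P
  -- the logarithmic vector fields
  obtain ⟨dd, hdddef⟩ : ∃ dd : Fin (d + 1) → Derivation ℂ K K,
    dd = fun b => algebraMap (fixedField G0) K (Y b) • DY b := ⟨_, rfl⟩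
  have hlog : ∀ b z, P.Reg (dd b z / z) := fun b z => by
    rw [hdddef]
    exact log_zmono hY X.lam hv h2 (fun j => by rw [hYK]; exact hDY b j) z
  have hdd : ∀ i j, dd i (C.Y j) = if i = j then C.Y j else 0 := by
    intro i j
    rw [hdddef]
    dsimp only
    rw [Derivation.smul_apply, hDY, smul_eq_mul, hYK]
    split_ifs with hij
    · rw [mul_one, hij]
    · rw [mul_zero]
  have hordY : ∀ b, P.ord (C.Y b) = e2 * ((X.V b.succ : ℤ) - X.V 0) := by
    intro b
    have h3 := hv (MvPolynomial.X b) (X_ne_zero _)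
    rw [aeval_X, zord_X] at h3
    rw [← hYK, h2.2, h3]
    rfl
  have hrel := C.toric_rel hdat X.h0 hordY
  have hdvd : e2 ∣ X.N := C.ram hw hI hIc hg1 h1 he
    (fun b σ hσ => by
      rw [← hYK']
      exact (Y b).2 ⟨σ, hσ⟩) hdat (fun y j hj hy => C.jc_unit hdat hdd hlog hj hy)
    X.hv hrel X.hT
  obtain ⟨r, hr1, hNr, hTv, hvv0⟩ := exists_mul C X h2.1 hdvd (fun k => by exact_mod_cast hrel k)
  exact ⟨P, α, vv, r, div_zmono hY X.lam hb0 hv h2, hdat, C.adm hdat hvv0, hr1, hTv⟩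

end Pool.Agent.Q57.TC
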