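import Pool.Agent.Q57.TC.TruA
import Pool.Agent.Q57.TC.One

/-!
The sections of the points of the dual lattice, for covers of the projective space.
-/

set_option autoImplicit false
set_option linter.overlappingInstances false
set_option linter.unusedSectionVars false
set_option maxHeartbeats 1000000

open FF MvPolynomial Pool.Agent.W603.LV Pool.Agent.W619.PQ
open Pool.Agent.W619.TW Pool.Agent.W602.GT Pool.Agent.TH122.AB Pool.Agent.TH756.PN
open Pool.Agent.Y169.CH Pool.Agent.W602.Cov Pool.Agent.W602.Cov.G Pool.Agent.Y169.TH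
open Pool.Agent.Q57.TP Pool.Agent.TH152.AC Pool.Agent.Q57.GM Pool.Agent.Q57.FG
open Pool.Agent.Q57.GG

namespace Pool.Agent.Q57.TC

variable {d : ℕ} {Φ : Arr (d + 1)} {K : Type} [Field K] [Algebra ℂ K] {R : ℕ} (C : Cv Φ K R)

theorem exists_mow {N : ℕ} {w : (Fin N → Derivation ℂ K K) → K} {P : Place ℂ K} {B : ℤ}
    (h : ∀ D, (∀ c, DerReg P (D c)) → w D ≠ 0 → B ≤ P.ord (w D))
    {D : Fin N → Derivation ℂ K K} (hD : ∀ c, DerReg P (D c)) (h0 : w D ≠ 0) :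
    ∃ D' : Fin N → Derivation ℂ K K, (∀ c, DerReg P (D' c)) ∧ w D' ≠ 0 ∧
      P.ord (w D') = mow w P :=
  Int.csInf_mem (s := {k : ℤ | ∃ D : Fin N → Derivation ℂ K K, (∀ c, DerReg P (D c)) ∧
    w D ≠ 0 ∧ P.ord (w D) = k}) ⟨_, D, hD, h0, rfl⟩ (mow_bdd h)

/-- the function of a point of the dual lattice -/
noncomputable def fA (m : ℕ) (y : Fin (d + 2) → ℤ) (k : Fin R → ℤ) : K :=
  (∏ j, C.z j ^ k j) * ∏ i, aeval C.x (Φ.F i) ^ (y i - m)

theorem fA_ne (m : ℕ) (y : Fin (d + 2) → ℤ) (k : Fin R → ℤ) : fA C m y k ≠ 0 :=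
  mul_ne_zero (Finset.prod_ne_zero_iff.2 fun j _ => zpow_ne_zero _ (C.z_ne j))
    (Finset.prod_ne_zero_iff.2 fun i _ => zpow_ne_zero _ (C.F_ne i))

/-- the coordinates of the point of the dual lattice -/
def uA (y : Fin (d + 2) → ℤ) (k : Fin R → ℤ) (i : Fin (d + 2)) : ℚ :=
  y i + ∑ j, (k j : ℚ) * (C.a j i / C.M j)

theorem ord_fA {P : Place ℂ K} {α : ℤ} {v : Fin (d + 2) → ℕ} (h : Dat P Φ.F Φ.dF C.x α v) {m : ℕ}
    {y : Fin (d + 2) → ℤ} {k : Fin R → ℤ}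
    (hdeg : ∑ i, (Φ.dF i : ℚ) * uA C y k i = (∑ i, (Φ.dF i : ℚ) - (d + 2)) * m) :
    (P.ord (fA C m y k) : ℚ) = - (m * (((d : ℚ) + 2) * α)) + ∑ i, (v i : ℚ) * uA C y k i -
      m * ∑ i, (v i : ℚ) := by
  have hz : ∀ j, (P.ord (C.z j) : ℚ) = ∑ i, (C.a j i / C.M j : ℚ) * (Φ.dF i * α + v i) := by
    intro j
    have h1 := congrArg P.ord (C.hz j)
    rw [P.ord_pow, ord_prod' P Finset.univ _ fun i _ => pow_ne_zero _ (C.F_ne i)] at h1
    have h2 : ∀ i, P.ord (aeval C.x (Φ.F i) ^ C.a j i) = C.a j i * (Φ.dF i * α + v i) := by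
      intro i
      rw [P.ord_pow, h.hv]
    rw [Finset.sum_congr rfl fun i _ => h2 i] at h1
    have hM : (C.M j : ℚ) ≠ 0 := by exact_mod_cast (C.hM j).ne'
    have h3 : (C.M j : ℚ) * P.ord (C.z j) =
        ∑ i, (C.a j i : ℚ) * (Φ.dF i * α + v i) := by exact_mod_cast h1
    refine mul_left_cancel₀ hM ?_
    rw [h3, Finset.mul_sum]
    refine Finset.sum_congr rfl fun i _ => ?_
    field_simp
  have hz0 := Finset.prod_ne_zero_iff.2 fun (j : Fin R) (_ : j ∈ Finset.univ) =>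
    zpow_ne_zero (k j) (C.z_ne j)
  have hp0 := Finset.prod_ne_zero_iff.2 fun (i : Fin (d + 2)) (_ : i ∈ Finset.univ) =>
    zpow_ne_zero (y i - m) (C.F_ne i)
  unfold fA
  rw [P.ord_mul hz0 hp0, ord_prod' P Finset.univ _ fun j _ => zpow_ne_zero _ (C.z_ne j),
    ord_prod' P Finset.univ _ fun i _ => zpow_ne_zero _ (C.F_ne i)]
  have h1 : ∀ i, P.ord (aeval C.x (Φ.F i) ^ (y i - m)) = (y i - m) * (Φ.dF i * α + v i) := by
    intro i
    rw [P.ord_zpow, h.hv]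
  rw [Finset.sum_congr rfl fun i _ => h1 i]
  push_cast
  have h2 : ∑ j, (P.ord (C.z j ^ k j) : ℚ) = ∑ i, ∑ j, (k j : ℚ) *
      ((C.a j i / C.M j : ℚ) * (Φ.dF i * α + v i)) := by
    rw [Finset.sum_comm]
    refine Finset.sum_congr rfl fun j _ => ?_
    rw [P.ord_zpow, Int.cast_mul, hz, Finset.mul_sum]
  rw [h2, ← Finset.sum_add_distrib]
  have h3 : ∀ i, ∑ j, (k j : ℚ) * ((C.a j i / C.M j : ℚ) * (Φ.dF i * α + v i)) +
      ((y i : ℚ) - m) * (Φ.dF i * α + v i) =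
      α * (Φ.dF i * uA C y k i) + v i * uA C y k i - m * α * Φ.dF i - m * v i := by
    intro i
    have h4 : ∑ j, (k j : ℚ) * ((C.a j i / C.M j : ℚ) * (Φ.dF i * α + v i)) =
        (∑ j, (k j : ℚ) * (C.a j i / C.M j)) * (Φ.dF i * α + v i) := by
      rw [Finset.sum_mul]
      exact Finset.sum_congr rfl fun j _ => by ring
    rw [h4]
    unfold uA
    ring
  rw [Finset.sum_congr rfl fun i _ => h3 i, Finset.sum_sub_distrib, Finset.sum_sub_distrib,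
    Finset.sum_add_distrib, ← Finset.mul_sum, ← Finset.mul_sum, ← Finset.mul_sum, hdeg]
  ring

/-- the section of a point of the dual lattice -/
noncomputable def sA (m : ℕ) (y : Fin (d + 2) → ℤ) (k : Fin R → ℤ)
    (D : Fin (d + 1) → Derivation ℂ K K) : K := bw D C.x ^ m * fA C m y k

/-- its order -/
theorem ord_sA {P : Place ℂ K} {α : ℤ} {v : Fin (d + 2) → ℕ} (h : Dat P Φ.F Φ.dF C.x α v) {m : ℕ}
    {y : Fin (d + 2) → ℤ} {k : Fin R → ℤ}
    (hdeg : ∑ i, (Φ.dF i : ℚ) * uA C y k i = (∑ i, (Φ.dF i : ℚ) - (d + 2)) * m)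
    {D : Fin (d + 1) → Derivation ℂ K K} (hD : bw D C.x ≠ 0) :
    (P.ord (sA C m y k D) : ℚ) = m * (P.ord (bw D C.x) : ℚ) - m * (((d : ℚ) + 2) * α) +
      ∑ i, (v i : ℚ) * uA C y k i - m * ∑ i, (v i : ℚ) := by
  unfold sA
  rw [P.ord_mul (pow_ne_zero _ hD) (fA_ne C _ _ _), P.ord_pow, Int.cast_add, ord_fA C h hdeg]
  push_cast
  ring

/-- the sections of the points of the dual lattice -/
theorem sA_sec {c : (Fin (d + 2) → ℕ) → ℚ} {δ : Place ℂ K → ℚ} (ht : CoefTa C c δ) {m : ℕ}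
    (hm : 1 ≤ m) {y : Fin (d + 2) → ℤ} {k : Fin R → ℤ}
    (hdeg : ∑ i, (Φ.dF i : ℚ) * uA C y k i = (∑ i, (Φ.dF i : ℚ) - (d + 2)) * m)
    (hadm : ∀ v, Pool.Agent.Y169.TH.Adm C.M C.a v → (m : ℚ) * (1 - c v) ≤
      ∑ i, (v i : ℚ) * uA C y k i) : BSec (d + 1) δ {1} m 0 (sA C m y k) := by
  refine ⟨?_, fun P _ D hD => ?_⟩
  · intro A D
    unfold sA
    rw [(bwa (d + 1) K).2.1 A D C.x, mul_pow]
    ring
  by_cases hbw : bw D C.x = 0
  · left
    unfold sA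
    rw [hbw, zero_pow (by omega), zero_mul]
  right
  refine ⟨1, by simp, one_ne_zero, ?_⟩
  obtain ⟨α, v, hα, h⟩ := C.exists_dat P
  rw [P.ord_one, ht P α v h ⟨D, hD, hbw⟩, ord_sA C h hdeg hbw]
  have h2 := mul_le_mul_of_nonneg_left (mow_le (w := fun D => bw D C.x) (bw_low C h) hD hbw)
    (show (0 : ℤ) ≤ m by positivity)
  have h2' := (Int.cast_le (R := ℚ)).2 h2
  have h4 : (m : ℚ) - m * (if v = 0 then 1 else c v) ≤ ∑ i, (v i : ℚ) * uA C y k i := by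
    by_cases hv : v = 0
    · rw [if_pos hv, hv]
      simp
    · rw [if_neg hv]
      have h5 := hadm v (C.adm h hv)
      linarith
  push_cast at h2' ⊢
  have h7 : (m : ℚ) * ((if v = 0 then 1 else c v) - ((mow (fun D => bw D C.x) P : ℚ) + 1 -
      ∑ k, (v k : ℚ) - ((d : ℚ) + 2) * α)) = m * (if v = 0 then 1 else c v) -
      m * (mow (fun D => bw D C.x) P : ℚ) - m + m * ∑ k, (v k : ℚ) +
      m * (((d : ℚ) + 2) * α) := by ring
  rw [h7]
  linarith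

end Pool.Agent.Q57.TC
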