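import Pool.Agent.Q57.TC.TopA
import Pool.Agent.Q57.TC.SecLA
import Pool.Agent.Q57.TC.PlcA
import Pool.Agent.Q57.GE.Dual

/-!
Effective base point freeness of nef log canonical divisors, for toroidal models of covers of the
projective space.
-/

set_option autoImplicit false
set_option linter.overlappingInstances false
set_option linter.unusedSectionVars false
set_option maxHeartbeats 1000000

open FF MvPolynomial Pool.Agent.W603.LV Pool.Agent.W619.PQ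
open Pool.Agent.W619.TW Pool.Agent.W602.GT Pool.Agent.TH122.AB Pool.Agent.TH756.PN
open Pool.Agent.Y169.CH Pool.Agent.W602.Cov Pool.Agent.W602.Cov.G
open Pool.Agent.Q57.TP Pool.Agent.TH152.AC Pool.Agent.Q57.GM Pool.Agent.Q57.FG
open Pool.Agent.Q57.GG

namespace Pool.Agent.Q57.TC

open Pool.Agent.Y169.TH (Arr Cv Dat Snc)

section cone

variable {r R : ℕ}

/-- the vector is in the cone generated by the vectors in `σ` -/
def InK (σ : Finset (Fin r → ℕ)) (v : Fin r → ℕ) : Prop :=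
  ∃ w : (Fin r → ℕ) → ℚ, (∀ s, 0 ≤ w s) ∧ ∀ k, (v k : ℚ) = ∑ s ∈ σ, w s * s k

/-- the function `1 - c` is linear on the cones of a fan, in the faces of the orthant -/
structure FanA (M : Fin R → ℕ) (a : Fin R → Fin r → ℕ) (S : Finset (Finset (Fin r → ℕ)))
    (c : (Fin r → ℕ) → ℚ) : Prop where
  adm : ∀ σ ∈ S, ∀ s ∈ σ, Pool.Agent.Y169.TH.Adm M a s
  full : ∀ σ ∈ S, ∃ k0, (∀ s ∈ σ, s k0 = 0) ∧ ∀ f : Fin r → ℚ, f k0 = 0 →
    ∃ q : (Fin r → ℕ) → ℚ, ∀ k, f k = ∑ s ∈ σ, q s * s k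
  cover : ∀ v, Pool.Agent.Y169.TH.Adm M a v → ∃ σ ∈ S, InK σ v
  lin : ∀ σ ∈ S, ∃ u : Fin r → ℚ, ∀ v, Pool.Agent.Y169.TH.Adm M a v → InK σ v →
    1 - c v = ∑ k, u k * v k

variable {M : Fin R → ℕ} {a : Fin R → Fin r → ℕ} {S : Finset (Finset (Fin r → ℕ))}
  {c : (Fin r → ℕ) → ℚ}

theorem FanA.ne (h : FanA M a S c) (hr : 2 ≤ r) {σ : Finset (Fin r → ℕ)} (hσ : σ ∈ S) :
    σ.Nonempty := by
  by_contra hcon
  rw [Finset.not_nonempty_iff_eq_empty] at hcon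
  obtain ⟨k0, -, hf⟩ := h.full σ hσ
  obtain ⟨k1, hk1⟩ : ∃ k1 : Fin r, k1 ≠ k0 := by
    by_cases h0 : k0 = ⟨0, by omega⟩
    · refine ⟨⟨1, by omega⟩, ?_⟩
      rw [h0]
      intro h1
      have h2 := congrArg Fin.val h1
      simp at h2
    · exact ⟨⟨0, by omega⟩, fun h1 => h0 h1.symm⟩
  obtain ⟨q, hq⟩ := hf (Function.update (fun _ => 1) k0 0) (Function.update_self _ _ _)
  have h1 := hq k1
  rw [Function.update_of_ne hk1, hcon, Finset.sum_empty] at h1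
  exact one_ne_zero h1

theorem inK_mem {σ : Finset (Fin r → ℕ)} {s : Fin r → ℕ} (hs : s ∈ σ) : InK σ s := by
  classical
  refine ⟨fun t => if t = s then 1 else 0, fun t => by dsimp only; split_ifs <;> norm_num,
    fun k => ?_⟩
  rw [Finset.sum_eq_single s]
  · dsimp only
    rw [if_pos rfl, one_mul]
  · intro t _ ht
    dsimp only
    rw [if_neg ht, zero_mul]
  · intro h
    exact absurd hs h

theorem adm_smul_a {v : Fin r → ℕ} (hv : Pool.Agent.Y169.TH.Adm M a v) {k : ℕ} (hk : 1 ≤ k) :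
    Pool.Agent.Y169.TH.Adm M a (k • v) := by
  obtain ⟨h0, ⟨k0, hk0⟩, hdv⟩ := hv
  refine ⟨?_, ⟨k0, by rw [Pi.smul_apply, hk0, smul_zero]⟩, fun j => ?_⟩
  · intro h1
    apply h0
    funext t
    have h2 := congrFun h1 t
    rw [Pi.smul_apply, Pi.zero_apply, smul_eq_mul] at h2
    rcases Nat.mul_eq_zero.1 h2 with h3 | h3
    · omega
    · exact h3
  · have h1 : ∑ i, a j i * (k • v) i = k * ∑ i, a j i * v i := by
      rw [Finset.mul_sum]
      refine Finset.sum_congr rfl fun i _ => ?_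
      rw [Pi.smul_apply, smul_eq_mul]
      ring
    rw [h1]
    exact Dvd.dvd.mul_left (hdv j) k

/-- the interior vector of a cone -/
def wσ (σ : Finset (Fin r → ℕ)) : Fin r → ℕ := fun k => ∑ s ∈ σ, s k

theorem inK_wσ (σ : Finset (Fin r → ℕ)) : InK σ (wσ σ) :=
  ⟨fun _ => 1, fun _ => zero_le_one, fun k => by
    unfold wσ
    push_cast
    exact Finset.sum_congr rfl fun s _ => (one_mul _).symm⟩

theorem FanA.adm_wσ (h : FanA M a S c) (hr : 2 ≤ r) {σ : Finset (Fin r → ℕ)} (hσ : σ ∈ S) :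
    Pool.Agent.Y169.TH.Adm M a (wσ σ) := by
  classical
  obtain ⟨s0, hs0⟩ := h.ne hr hσ
  obtain ⟨k0, hk0, -⟩ := h.full σ hσ
  refine ⟨?_, ⟨k0, ?_⟩, fun j => ?_⟩
  · intro h0
    apply (h.adm σ hσ s0 hs0).1
    funext k
    have h1 := congrFun h0 k
    unfold wσ at h1
    rw [Pi.zero_apply, Finset.sum_eq_zero_iff] at h1
    exact h1 s0 hs0
  · unfold wσ
    exact Finset.sum_eq_zero hk0
  · have h1 : ∑ i, a j i * wσ σ i = ∑ s ∈ σ, ∑ i, a j i * s i := by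
      unfold wσ
      rw [Finset.sum_comm]
      exact Finset.sum_congr rfl fun i _ => Finset.mul_sum _ _ _
    rw [h1]
    exact Finset.dvd_sum fun s hs => (h.adm σ hσ s hs).2.2 j

/-- a vector of the lattice in the hyperplane of a cone is the difference of vectors in the cone -/
theorem FanA.diff (h : FanA M a S c) (hr : 2 ≤ r) {σ : Finset (Fin r → ℕ)} (hσ : σ ∈ S)
    {k0 : Fin r} (hf : ∀ f : Fin r → ℚ, f k0 = 0 →
      ∃ q : (Fin r → ℕ) → ℚ, ∀ k, f k = ∑ s ∈ σ, q s * s k)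
    (v : Fin r → ℤ) (hv0 : v k0 = 0) (hv : ∀ j, (M j : ℤ) ∣ ∑ i, (a j i : ℤ) * v i) :
    ∃ (w : Fin r → ℕ) (N : ℕ), Pool.Agent.Y169.TH.Adm M a w ∧ InK σ w ∧
      ∀ k, (w k : ℤ) = v k + N * wσ σ k := by
  classical
  obtain ⟨q, hq⟩ := hf (fun k => (v k : ℚ)) (by
    rw [hv0, Int.cast_zero])
  obtain ⟨N, hN⟩ := exists_nat_gt (∑ s ∈ σ, |q s|)
  have hqN : ∀ s ∈ σ, 0 < q s + N := by
    intro s hs
    have h1 := Finset.single_le_sum (f := fun s => |q s|) (fun _ _ => abs_nonneg _) hs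
    have h2 := neg_abs_le (q s)
    linarith
  -- the vector in the cone
  have hw : ∀ k, ((v k + N * wσ σ k : ℤ) : ℚ) = ∑ s ∈ σ, (q s + N) * s k := by
    intro k
    push_cast
    rw [hq k]
    unfold wσ
    push_cast
    rw [Finset.mul_sum, ← Finset.sum_add_distrib]
    exact Finset.sum_congr rfl fun s _ => by ring
  have hw0 : ∀ k, 0 ≤ v k + N * (wσ σ k : ℤ) := by
    intro k
    have h1 : (0 : ℚ) ≤ ((v k + N * wσ σ k : ℤ) : ℚ) := by
      rw [hw k]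
      exact Finset.sum_nonneg fun s hs => mul_nonneg (hqN s hs).le (by positivity)
    exact_mod_cast h1
  obtain ⟨w, hwd⟩ : ∃ w : Fin r → ℕ, ∀ k, (w k : ℤ) = v k + N * wσ σ k :=
    ⟨fun k => (v k + N * wσ σ k).toNat, fun k => Int.toNat_of_nonneg (hw0 k)⟩
  have hwq : ∀ k, (w k : ℚ) = ∑ s ∈ σ, (q s + N) * s k := by
    intro k
    rw [← hw k, ← hwd k]
    push_cast
    rfl
  obtain ⟨k1, hk1, -⟩ := h.full σ hσ
  refine ⟨w, N, ⟨?_, ⟨k1, ?_⟩, fun j => ?_⟩, ⟨fun s => if s ∈ σ then q s + N else 0,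
    fun s => ?_, fun k => ?_⟩, hwd⟩
  · obtain ⟨s0, hs0⟩ := h.ne hr hσ
    intro h0
    have h1 : ∀ k, s0 k = 0 := by
      intro k
      have h2 := hwq k
      rw [h0, Pi.zero_apply, Nat.cast_zero] at h2
      have h3 := (Finset.sum_eq_zero_iff_of_nonneg fun s hs =>
        mul_nonneg (hqN s hs).le (by positivity : (0 : ℚ) ≤ s k)).1 h2.symm s0 hs0
      have h4 := (mul_eq_zero.1 h3).resolve_left (hqN s0 hs0).ne'
      exact_mod_cast h4
    exact (h.adm σ hσ s0 hs0).1 (funext h1)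
  · have h1 := hwq k1
    rw [Finset.sum_eq_zero fun s hs => by rw [hk1 s hs, Nat.cast_zero, mul_zero]] at h1
    exact_mod_cast h1
  · have h1 : ((∑ i, a j i * w i : ℕ) : ℤ) = ∑ i, (a j i : ℤ) * v i +
        N * ((∑ i, a j i * wσ σ i : ℕ) : ℤ) := by
      push_cast
      rw [Finset.mul_sum, ← Finset.sum_add_distrib]
      refine Finset.sum_congr rfl fun i _ => ?_
      rw [hwd]
      ring
    have h2 : (M j : ℤ) ∣ ((∑ i, a j i * w i : ℕ) : ℤ) := by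
      rw [h1]
      refine dvd_add (hv j) (Dvd.dvd.mul_left ?_ _)
      exact_mod_cast (h.adm_wσ hr hσ).2.2 j
    exact_mod_cast h2
  · dsimp only
    split_ifs with hs
    · exact (hqN s hs).le
    · exact le_rfl
  · rw [hwq k]
    refine Finset.sum_congr rfl fun s hs => ?_
    dsimp only
    rw [if_pos hs]

/-- the ray condition -/
theorem FanA.ray (h : FanA M a S c) (v : Fin r → ℕ) (k : ℕ) (hk : 1 ≤ k)
    (hv : Pool.Agent.Y169.TH.Adm M a v) : 1 - c (k • v) ≤ k * (1 - c v) := by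
  obtain ⟨σ, hσ, w, hw, hwv⟩ := h.cover v hv
  obtain ⟨u, hu⟩ := h.lin σ hσ
  have h1 := hu v hv ⟨w, hw, hwv⟩
  have h2 := hu (k • v) (adm_smul_a hv hk) ⟨fun s => k * w s, fun s => mul_nonneg (by positivity)
    (hw s), fun j => by
      simp only [Pi.smul_apply, smul_eq_mul]
      push_cast
      rw [hwv j, Finset.mul_sum]
      exact Finset.sum_congr rfl fun s _ => by ring⟩
  rw [h1, h2, Finset.mul_sum]
  refine le_of_eq (Finset.sum_congr rfl fun j _ => ?_)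
  simp only [Pi.smul_apply, smul_eq_mul]
  push_cast
  ring

/-- finitely many inequalities imply the others -/
theorem FanA.fg (h : FanA M a S c) :
    ∃ T : Finset (Fin r → ℕ), (∀ s ∈ T, Pool.Agent.Y169.TH.Adm M a s) ∧
      ∀ v, Pool.Agent.Y169.TH.Adm M a v → ∃ w : (Fin r → ℕ) → ℚ, (∀ s, 0 ≤ w s) ∧
        (∀ k, ∑ s ∈ T, w s * s k ≤ v k) ∧ 1 - c v ≤ ∑ s ∈ T, w s * (1 - c s) := by
  classical
  refine ⟨S.biUnion id, fun s hs => ?_, fun v hv => ?_⟩
  · obtain ⟨σ, hσ, hsσ⟩ := Finset.mem_biUnion.1 hs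
    exact h.adm σ hσ s hsσ
  obtain ⟨σ, hσ, w, hw, hwv⟩ := h.cover v hv
  obtain ⟨u, hu⟩ := h.lin σ hσ
  have hsub : σ ⊆ S.biUnion id := fun s hs => Finset.mem_biUnion.2 ⟨σ, hσ, hs⟩
  have hsum : ∀ f : (Fin r → ℕ) → ℚ, ∑ s ∈ S.biUnion id, (if s ∈ σ then w s else 0) * f s =
      ∑ s ∈ σ, w s * f s := by
    intro f
    rw [← Finset.sum_subset hsub]
    · exact Finset.sum_congr rfl fun s hs => by rw [if_pos hs]
    · intro s _ hs
      rw [if_neg hs, zero_mul]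
  refine ⟨fun s => if s ∈ σ then w s else 0, fun s => ?_, fun k => ?_, ?_⟩
  · dsimp only
    split_ifs
    · exact hw s
    · exact le_rfl
  · rw [hsum fun s => (s k : ℚ), hwv k]
  · rw [hsum fun s => 1 - c s, hu v hv ⟨w, hw, hwv⟩]
    have h1 : ∀ s ∈ σ, w s * (1 - c s) = ∑ k, u k * (w s * s k) := by
      intro s hs
      rw [hu s (h.adm σ hσ s hs) (inK_mem hs), Finset.mul_sum]
      exact Finset.sum_congr rfl fun k _ => by ring
    rw [Finset.sum_congr rfl h1, Finset.sum_comm]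
    refine le_of_eq (Finset.sum_congr rfl fun k _ => ?_)
    rw [hwv k, Finset.mul_sum]

/-- the values on a cone, from the values at its generators -/
theorem FanA.val (h : FanA M a S c) {σ : Finset (Fin r → ℕ)} (hσ : σ ∈ S) {y : Fin r → ℚ}
    (hy : ∀ s ∈ σ, ∑ k, y k * s k = 1 - c s) {v : Fin r → ℕ}
    (hv : Pool.Agent.Y169.TH.Adm M a v) (hvσ : InK σ v) : ∑ k, y k * v k = 1 - c v := by
  obtain ⟨u, hu⟩ := h.lin σ hσ
  obtain ⟨w, hw, hwv⟩ := hvσ
  rw [hu v hv ⟨w, hw, hwv⟩]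
  have key : ∀ z : Fin r → ℚ, ∑ k, z k * v k = ∑ s ∈ σ, w s * ∑ k, z k * s k := by
    intro z
    simp only [Finset.mul_sum]
    rw [Finset.sum_comm]
    refine Finset.sum_congr rfl fun k _ => ?_
    rw [hwv k, Finset.mul_sum]
    exact Finset.sum_congr rfl fun s _ => by ring
  rw [key, key]
  refine Finset.sum_congr rfl fun s hs => ?_
  rw [hy s hs, hu s (h.adm σ hσ s hs) (inK_mem hs)]

end cone

variable {d : ℕ} {Φ : Arr (d + 1)} {K : Type} [Field K] [Algebra ℂ K] {R : ℕ} (C : Cv Φ K R)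
  {c : (Fin (d + 2) → ℕ) → ℚ} {δ δ0 : Place ℂ K → ℚ}

/-- **Effective base point freeness.** -/
theorem free_a (ht : CoefTa C c δ) (hcf : Coef C c δ0)
    {S : Finset (Finset (Fin (d + 2) → ℕ))} (hS : FanA C.M C.a S c)
    (hκ : 0 ≤ ∑ k, (Φ.dF k : ℤ) - (d + 2)) {ρ : ℕ} (hρ1 : 1 ≤ ρ)
    (hρ : ∀ v, Pool.Agent.Y169.TH.Adm C.M C.a v → ∃ z : ℤ, (ρ : ℚ) * c v = z) {t : ℕ}
    (ht1 : 1 ≤ t) (htd : ∀ k, Φ.dF k ∣ t) (hn : BNef (d + 1) δ) :
    ∀ P : Place ℂ K, Divisorial (d + 1) P → ∃ ω, BSec (d + 1) δ {1} (t * ρ) 0 ω ∧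
      ∃ D, (∀ c, DerReg P (D c)) ∧ ω D ≠ 0 ∧ (P.ord (ω D) : ℚ) ≤ - (((t * ρ : ℕ) : ℚ) * δ P) := by
  classical
  obtain ⟨T, hT⟩ := exists_bigM (p := 1) (c := fun _ => c) C.hM (by
    obtain ⟨T, hT1, hT2⟩ := hS.fg
    refine ⟨T, hT1, fun v hv => ?_⟩
    obtain ⟨w, h1, h2, h3⟩ := hT2 v hv
    exact ⟨w, h1, h2, fun _ => h3⟩)
  obtain ⟨N0, g, ω, hex, hord, D0, hωD0, hD0⟩ := geoAx (p := 1) (c := fun _ => c)
    (δ := fun _ => δ0) C (fun _ => hcf) (fun _ => hS.ray) hT hκ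
  have hg : ∀ b, g b ≠ 0 ∧ MSec (d + 1) (fun _ : Fin 1 => δ) (g b) (ω b) := by
    intro b
    obtain ⟨hgb, a, hωb, hE, hadm⟩ := hex b
    refine ⟨hgb, ?_⟩
    rw [hωb]
    exact sG_ta C (fun _ => ht) hgb hE hadm
  have hord' : ∀ (P : Place ℂ K) (S : Finset K) (D : Fin (d + 1) → Derivation ℂ K K),
      ∃ C1 : ℕ, ∀ (μ : Fin 1 →₀ ℕ) (j : ℕ) (η : (Fin (d + 1) → Derivation ℂ K K) → K), μ ≠ 0 →
          GG.ASec (d + 1) (fun _ : Fin 1 => δ) S μ j η → η D = 0 ∨ ((∀ b, ω b D ≠ 0) ∧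
            ∃ e : Fin N0 → ℕ,
              (∀ i, |∑ b, (e b : ℤ) * g b i - μ i| ≤ C1 * (j + 1)) ∧
              ∑ b, (e b : ℤ) * P.ord (ω b D) ≤ P.ord (η D) + C1 * (j + 1)) := by
    intro P S D
    obtain ⟨C1, hC1⟩ := hord P S D
    exact ⟨C1, fun μ j η hμ hη => hC1 μ j η hμ
      (asec_iff.1 (asec_ta C hD0 (fun _ => ht) (fun _ => hcf) hμ hη))⟩
  have hpl : ∀ (m : ℕ) (η : (Fin (d + 1) → Derivation ℂ K K) → K), IsPluri m η →
      ∀ D, η D * (1 : K) ^ m = (fun D => bw D C.x) D ^ m * η D0 := fun m η hη D => by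
    rw [one_pow, mul_one]
    exact pluri_eq C hD0 hη D
  have hnR := nefR_of_b hn
  -- the sections at a place
  have hnv : ∀ P : Place ℂ K, Divisorial (d + 1) P → ∃ (b : Fin N0)
      (D : Fin (d + 1) → Derivation ℂ K K), (∀ c, DerReg P (D c)) ∧ ω b D ≠ 0 ∧
      (P.ord (ω b D) : ℚ) ≤ - (((∑ i, g b i : ℕ) : ℚ) * δ P) := by
    intro P hP
    obtain ⟨t, ht, hlt, hnv⟩ := semi_of_nefR one_ne_zero hpl hg hord' (fun _ => 1)
      (fun _ => zero_le_one) hnR P hP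
    have h1 : ∃ b, t b ≠ 0 := by
      by_contra hcon
      push Not at hcon
      have h2 := hlt 0
      rw [Finset.sum_eq_zero fun b _ => by rw [hcon b, zero_mul]] at h2
      exact one_ne_zero h2
    obtain ⟨b, hb⟩ := h1
    obtain ⟨D, hD, hne, hle⟩ := hnv b hb
    refine ⟨b, D, hD, hne, ?_⟩
    rw [Fin.sum_univ_one] at hle ⊢
    exact hle
  have hgpos : ∀ b, 1 ≤ ∑ i, g b i := fun b => ne_zero_sum (hg b).1
  -- the data of a section which does not vanish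
  have hdata : ∀ (P : Place ℂ K) (b : Fin N0) (D : Fin (d + 1) → Derivation ℂ K K),
      (∀ c, DerReg P (D c)) → ω b D ≠ 0 →
      (P.ord (ω b D) : ℚ) ≤ - (((∑ i, g b i : ℕ) : ℚ) * δ P) → bw D C.x ≠ 0 ∧
      ∃ y : Fin (d + 2) → ℚ,
        ∑ k, (Φ.dF k : ℚ) * y k = ∑ k, (Φ.dF k : ℚ) - (d + 2) ∧
        (∀ v, Pool.Agent.Y169.TH.Adm C.M C.a v → 1 - c v ≤ ∑ k, y k * v k) ∧
        ∀ α v, Dat P Φ.F Φ.dF C.x α v → v ≠ 0 → ∑ k, y k * v k ≤ 1 - c v := by
    intro P b D hD hne hle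
    obtain ⟨-, a, hωb, hE, hadm⟩ := hex b
    obtain ⟨m, hm⟩ : ∃ m : ℕ, m = ∑ i, g b i := ⟨_, rfl⟩
    rw [← hm] at hle hωb hE
    have hm1 : 1 ≤ m := by
      rw [hm]
      exact hgpos b
    have hmq : (0 : ℚ) < m := by exact_mod_cast hm1
    rw [hωb] at hne hle
    have hbw : bw D C.x ≠ 0 := by
      intro h0
      apply hne
      unfold sG
      rw [h0, zero_pow (by omega), zero_mul]
    have hyv : ∀ v : Fin (d + 2) → ℕ, ∑ k, ((Φ.ee k : ℚ) * a k / m) * v k =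
        ((∑ k, (Φ.ee k : ℤ) * v k * a k : ℤ) : ℚ) / m := by
      intro v
      push_cast
      rw [Finset.sum_div]
      exact Finset.sum_congr rfl fun k _ => by ring
    refine ⟨hbw, fun k => (Φ.ee k : ℚ) * a k / m, ?_, fun v hv => ?_, fun α v h hv => ?_⟩
    · have h1 : ∑ k, (Φ.dF k : ℚ) * ((Φ.ee k : ℚ) * a k / m) =
          (((Φ.E : ℤ) * ∑ k, a k : ℤ) : ℚ) / m := by
        push_cast
        rw [Finset.mul_sum, Finset.sum_div]
        refine Finset.sum_congr rfl fun k _ => ?_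
        have h4 : (Φ.dF k : ℚ) * Φ.ee k = Φ.E := by exact_mod_cast Φ.d_ee k
        rw [← h4]
        ring
      rw [h1, hE]
      push_cast
      field_simp
    · rw [hyv v, le_div_iff₀ hmq]
      have h1 := hadm v hv
      rw [Fin.sum_univ_one] at h1
      have h2 : (m : ℚ) = g b 0 := by
        rw [hm, Fin.sum_univ_one]
      rw [h2, mul_comm]
      exact h1
    · rw [hyv v, div_le_iff₀ hmq]
      rw [ord_sG C h hbw hE, ht P α v h ⟨D, hD, hbw⟩, if_neg hv] at hle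
      have h2 := mul_le_mul_of_nonneg_left (mow_le (w := fun D => bw D C.x) (bw_low C h) hD hbw)
        (show (0 : ℤ) ≤ m by positivity)
      have h2' := (Int.cast_le (R := ℚ)).2 h2
      have h6 : ∑ k, ((Φ.dF k : ℤ) * α + v k) = α * ∑ k, (Φ.dF k : ℤ) + ∑ k, (v k : ℤ) := by
        rw [Finset.sum_add_distrib, Finset.mul_sum]
        congr 1
        exact Finset.sum_congr rfl fun k _ => by ring
      rw [h6] at hle
      push_cast at hle h2' ⊢
      have h7 : (m : ℚ) * (c v - ((mow (fun D => bw D C.x) P : ℚ) + 1 - ∑ k, (v k : ℚ) -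
          ((d : ℚ) + 2) * α)) = m * c v - m * (mow (fun D => bw D C.x) P : ℚ) - m +
          m * ∑ k, (v k : ℚ) + m * (((d : ℚ) + 2) * α) := by ring
      rw [h7] at hle
      have h8 : (α : ℚ) * ((∑ k, (Φ.dF k : ℚ) - (d + 2)) * m) - m * (α * ∑ k, (Φ.dF k : ℚ) +
          ∑ k, (v k : ℚ)) = - (m * (((d : ℚ) + 2) * α)) - m * ∑ k, (v k : ℚ) := by ring
      linarith
  -- the points of the cones
  have hcone : ∀ σ ∈ S, ∃ y : Fin (d + 2) → ℚ,
      ∑ k, (Φ.dF k : ℚ) * y k = ∑ k, (Φ.dF k : ℚ) - (d + 2) ∧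
      (∀ v, Pool.Agent.Y169.TH.Adm C.M C.a v → 1 - c v ≤ ∑ k, y k * v k) ∧
      ∀ v, Pool.Agent.Y169.TH.Adm C.M C.a v → InK σ v → ∑ k, y k * v k = 1 - c v := by
    intro σ hσ
    have hadm0 := hS.adm_wσ (by omega) hσ
    obtain ⟨X, hX⟩ := C.exists_dir hadm0
    obtain ⟨P, α, v, r', hP, hdat, hadm', hr', hXr⟩ := exists_place_a C X
    rw [hX] at hXr
    obtain ⟨b, D, hD, hne, hle⟩ := hnv P hP
    obtain ⟨-, y, hy1, hy2, hy3⟩ := hdata P b D hD hne hle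
    have hyv := hy3 α v hdat hadm'.1
    have hr'q : (0 : ℚ) < r' := by exact_mod_cast hr'
    -- the values at the generators
    have hgen : ∀ s ∈ σ, ∑ k, y k * s k = 1 - c s := by
      have h0 : ∑ s ∈ σ, (∑ k, y k * s k - (1 - c s)) = ∑ k, y k * wσ σ k - (1 - c (wσ σ)) := by
        obtain ⟨u, hu⟩ := hS.lin σ hσ
        rw [Finset.sum_sub_distrib, hu _ hadm0 (inK_wσ σ)]
        have h1 : ∀ s ∈ σ, 1 - c s = ∑ k, u k * s k := fun s hs =>
          hu s (hS.adm σ hσ s hs) (inK_mem hs)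
        rw [Finset.sum_congr rfl h1]
        have h2 : ∀ z : Fin (d + 2) → ℚ, ∑ s ∈ σ, ∑ k, z k * (s k : ℚ) =
            ∑ k, z k * wσ σ k := by
          intro z
          rw [Finset.sum_comm]
          refine Finset.sum_congr rfl fun k _ => ?_
          unfold wσ
          push_cast
          rw [Finset.mul_sum]
        rw [h2, h2]
      have h1 : ∑ k, y k * wσ σ k - (1 - c (wσ σ)) ≤ 0 := by
        have h2 := hS.ray v r' hr' hadm'
        have h3 : ∑ k, y k * wσ σ k = r' * ∑ k, y k * v k := by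
          rw [hXr, Finset.mul_sum]
          refine Finset.sum_congr rfl fun k _ => ?_
          simp only [Pi.smul_apply, smul_eq_mul]
          push_cast
          ring
        -- the function is linear on the ray
        have h4 : (r' : ℚ) * (1 - c v) = 1 - c (wσ σ) := by
          obtain ⟨u, hu⟩ := hS.lin σ hσ
          have hvσ : InK σ v := by
            obtain ⟨w, hw, hwv⟩ := inK_wσ σ
            refine ⟨fun s => w s / r', fun s => div_nonneg (hw s) hr'q.le, fun k => ?_⟩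
            have h1 := hwv k
            rw [hXr, Pi.smul_apply, smul_eq_mul, Nat.cast_mul] at h1
            have h2 : ∑ s ∈ σ, w s / r' * (s k : ℚ) = (∑ s ∈ σ, w s * (s k : ℚ)) / r' := by
              rw [Finset.sum_div]
              exact Finset.sum_congr rfl fun s _ => by ring
            rw [h2, ← h1]
            field_simp
          rw [hu v hadm' hvσ, hu _ hadm0 (inK_wσ σ), hXr, Finset.mul_sum]
          refine Finset.sum_congr rfl fun k _ => ?_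
          simp only [Pi.smul_apply, smul_eq_mul]
          push_cast
          ring
        rw [h3, ← h4]
        have := mul_le_mul_of_nonneg_left hyv hr'q.le
        linarith
      have h2 : ∀ s ∈ σ, 0 ≤ ∑ k, y k * s k - (1 - c s) := fun s hs =>
        sub_nonneg.2 (hy2 s (hS.adm σ hσ s hs))
      have h3 : ∑ s ∈ σ, (∑ k, y k * s k - (1 - c s)) = 0 := by
        apply le_antisymm
        · rw [h0]
          exact h1
        · exact Finset.sum_nonneg h2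
      intro s hs
      have h4 := (Finset.sum_eq_zero_iff_of_nonneg h2).1 h3 s hs
      linarith
    exact ⟨y, hy1, hy2, fun v hv hvσ => hS.val hσ hgen hv hvσ⟩
  -- the section
  intro P hP
  obtain ⟨b, D1, hD1, hne, hle⟩ := hnv P hP
  obtain ⟨hbw1, -⟩ := hdata P b D1 hD1 hne hle
  obtain ⟨α, v, hα, hdat⟩ := C.exists_dat P
  obtain ⟨D, hD, hbw, hmo⟩ := exists_mow (w := fun D => bw D C.x) (bw_low C hdat) hD1 hbw1
  -- the cone
  obtain ⟨σ, hσ, hvσ⟩ : ∃ σ ∈ S, v ≠ 0 → InK σ v := by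
    by_cases hv : v = 0
    · obtain ⟨σ, hσ, -⟩ := hS.cover _ (adm_unit C.hM (by omega) 0)
      exact ⟨σ, hσ, fun h => absurd hv h⟩
    · obtain ⟨σ, hσ, h⟩ := hS.cover v (C.adm hdat hv)
      exact ⟨σ, hσ, fun _ => h⟩
  obtain ⟨y, hy1, hy2, hy3⟩ := hcone σ hσ
  obtain ⟨k0, hk0, hfull⟩ := hS.full σ hσ
  -- integrality
  have hint0 : ∀ v : Fin (d + 2) → ℤ, v k0 = 0 →
      (∀ j, (C.M j : ℤ) ∣ ∑ i, (C.a j i : ℤ) * v i) → ∃ z : ℤ, ∑ i, (ρ * y i) * v i = z := by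
    intro v hv0 hv
    obtain ⟨w, N, hw, hwσ, hwd⟩ := hS.diff (by omega) hσ hfull v hv0 hv
    obtain ⟨z1, hz1⟩ := hρ w hw
    obtain ⟨z2, hz2⟩ := hρ _ (hS.adm_wσ (by omega) hσ)
    have h1 := hy3 w hw hwσ
    have h2 := hy3 _ (hS.adm_wσ (by omega) hσ) (inK_wσ σ)
    refine ⟨ρ - z1 - N * (ρ - z2), ?_⟩
    have h3 : ∑ i, (ρ * y i) * (v i : ℚ) = ρ * ∑ k, y k * w k - N * (ρ * ∑ k, y k * wσ σ k) := by
      rw [Finset.mul_sum, Finset.mul_sum, Finset.mul_sum, ← Finset.sum_sub_distrib]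
      refine Finset.sum_congr rfl fun i _ => ?_
      have h4 : (w i : ℚ) = v i + N * wσ σ i := by exact_mod_cast hwd i
      rw [h4]
      ring
    rw [h3, h1, h2]
    push_cast
    rw [← hz1, ← hz2]
    ring
  have hint : ∀ v : Fin (d + 2) → ℤ,
      (∀ j, (C.M j : ℤ) ∣ ∑ i, (C.a j i : ℤ) * v i) →
        ∃ z : ℤ, ∑ i, (((t * ρ : ℕ) : ℚ) * y i) * v i = z := by
    intro v hv
    obtain ⟨z, hz⟩ := hint0 (fun i => (Φ.dF k0 : ℤ) * v i - v k0 * Φ.dF i) (by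
      ring) fun j => by
        have h1 : ∑ i, (C.a j i : ℤ) * ((Φ.dF k0 : ℤ) * v i - v k0 * Φ.dF i) =
            Φ.dF k0 * ∑ i, (C.a j i : ℤ) * v i - v k0 * ((∑ i, C.a j i * Φ.dF i : ℕ) : ℤ) := by
          push_cast
          rw [Finset.mul_sum, Finset.mul_sum, ← Finset.sum_sub_distrib]
          exact Finset.sum_congr rfl fun i _ => by ring
        rw [h1]
        refine dvd_sub (Dvd.dvd.mul_left (hv j) _) (Dvd.dvd.mul_left ?_ _)
        exact_mod_cast C.hdiv j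
    obtain ⟨q, hq⟩ := htd k0
    refine ⟨q * (z + v k0 * (ρ * (∑ k, (Φ.dF k : ℤ) - (d + 2)))), ?_⟩
    have h1 : ∑ i, (((t * ρ : ℕ) : ℚ) * y i) * (v i : ℚ) =
        q * (∑ i, (ρ * y i) * ((((Φ.dF k0 : ℤ) * v i - v k0 * Φ.dF i : ℤ)) : ℚ) +
          v k0 * (ρ * ∑ k, (Φ.dF k : ℚ) * y k)) := by
      rw [hq]
      push_cast
      rw [Finset.mul_sum, Finset.mul_sum, ← Finset.sum_add_distrib, Finset.mul_sum]
      refine Finset.sum_congr rfl fun i _ => ?_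
      ring
    rw [h1, hz, hy1]
    push_cast
    ring
  obtain ⟨y', k, hyk⟩ := Pool.Agent.Q57.GE.dual_lattice C.hM C.a (fun i => ((t * ρ : ℕ) : ℚ) * y i) hint
  have huA : ∀ i, uA C y' k i = ((t * ρ : ℕ) : ℚ) * y i := fun i => (hyk i).symm
  have hm1 : 1 ≤ t * ρ := Nat.mul_pos ht1 hρ1
  have hdeg : ∑ i, (Φ.dF i : ℚ) * uA C y' k i =
      (∑ i, (Φ.dF i : ℚ) - (d + 2)) * ((t * ρ : ℕ) : ℚ) := by
    rw [← hy1, Finset.sum_mul]
    refine Finset.sum_congr rfl fun i _ => ?_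
    rw [huA]
    ring
  have hsumA : ∀ v : Fin (d + 2) → ℕ, ∑ i, (v i : ℚ) * uA C y' k i =
      ((t * ρ : ℕ) : ℚ) * ∑ k, y k * v k := by
    intro v
    rw [Finset.mul_sum]
    refine Finset.sum_congr rfl fun i _ => ?_
    rw [huA]
    ring
  have hmq : (0 : ℚ) ≤ ((t * ρ : ℕ) : ℚ) := by positivity
  refine ⟨sA C (t * ρ) y' k, sA_sec C ht hm1 hdeg fun v hv => ?_, D, hD,
    mul_ne_zero (pow_ne_zero _ hbw) (fA_ne C _ _ _), ?_⟩
  · rw [hsumA]
    exact mul_le_mul_of_nonneg_left (hy2 v hv) hmq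
  · rw [ord_sA C hdat hdeg hbw, hsumA, ht P α v hdat ⟨D, hD, hbw⟩]
    have hmo' : (P.ord (bw D C.x) : ℚ) = (mow (fun D => bw D C.x) P : ℚ) := by exact_mod_cast hmo
    rw [hmo']
    have h3 : ((t * ρ : ℕ) : ℚ) * ∑ k, y k * v k = ((t * ρ : ℕ) : ℚ) *
        (1 - (if v = 0 then 1 else c v)) := by
      by_cases hv : v = 0
      · rw [if_pos hv, hv]
        simp
      · rw [if_neg hv, hy3 v (C.adm hdat hv) (hvσ hv)]
    rw [h3]
    refine le_of_eq ?_
    ring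

end Pool.Agent.Q57.TC
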