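import Pool.Agent.Q57.TC.CvrA
import Pool.Agent.Q57.GG.GeoA
import Pool.Agent.Q57.GG.NefC

/-!
The coefficients of the pullbacks of log canonical divisors at all divisorial places, for covers of
the projective space.
-/

set_option autoImplicit false
set_option linter.overlappingInstances false
set_option linter.unusedSectionVars false
set_option maxHeartbeats 1000000

open FF MvPolynomial Pool.Agent.W603.LV Pool.Agent.W619.PQ
open Pool.Agent.W619.TW Pool.Agent.W602.GT Pool.Agent.TH122.AB Pool.Agent.TH756.PN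
open Pool.Agent.Y169.CH Pool.Agent.W602.Cov Pool.Agent.W602.Cov.G Pool.Agent.Y169.TH
open Pool.Agent.Q57.TP Pool.Agent.TH152.AC Pool.Agent.Q57.GM Pool.Agent.Q57.FG
open Pool.Agent.Q57.GG

namespace Pool.Agent.Q57.TC

section

variable {N : ℕ} {K : Type} [Field K] [Algebra ℂ K]

/-- the minimal order of a form on the regular vector fields -/
noncomputable def mow (w : (Fin N → Derivation ℂ K K) → K) (P : Place ℂ K) : ℤ :=
  sInf {k : ℤ | ∃ D : Fin N → Derivation ℂ K K, (∀ c, DerReg P (D c)) ∧ w D ≠ 0 ∧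
    P.ord (w D) = k}

theorem mow_bdd {w : (Fin N → Derivation ℂ K K) → K} {P : Place ℂ K} {B : ℤ}
    (h : ∀ D, (∀ c, DerReg P (D c)) → w D ≠ 0 → B ≤ P.ord (w D)) :
    BddBelow {k : ℤ | ∃ D : Fin N → Derivation ℂ K K, (∀ c, DerReg P (D c)) ∧ w D ≠ 0 ∧
      P.ord (w D) = k} := by
  refine ⟨B, ?_⟩
  rintro k ⟨D, hD, h0, rfl⟩
  exact h D hD h0

theorem mow_le {w : (Fin N → Derivation ℂ K K) → K} {P : Place ℂ K} {B : ℤ}
    (h : ∀ D, (∀ c, DerReg P (D c)) → w D ≠ 0 → B ≤ P.ord (w D))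
    {D : Fin N → Derivation ℂ K K} (hD : ∀ c, DerReg P (D c)) (h0 : w D ≠ 0) :
    mow w P ≤ P.ord (w D) := csInf_le (mow_bdd h) ⟨D, hD, h0, rfl⟩

theorem le_mow {w : (Fin N → Derivation ℂ K K) → K} {P : Place ℂ K} {B : ℤ}
    (h : ∀ D, (∀ c, DerReg P (D c)) → w D ≠ 0 → B ≤ P.ord (w D))
    {D : Fin N → Derivation ℂ K K} (hD : ∀ c, DerReg P (D c)) (h0 : w D ≠ 0) :
    B ≤ mow w P := by
  refine le_csInf ⟨_, D, hD, h0, rfl⟩ ?_
  rintro k ⟨D', hD', h0', rfl⟩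
  exact h D' hD' h0'

theorem mow_scale {w w' : (Fin N → Derivation ℂ K K) → K} {lam : K} (hlam : lam ≠ 0)
    (hw : ∀ D, w D = lam * w' D) {P : Place ℂ K} {B : ℤ}
    (h : ∀ D, (∀ c, DerReg P (D c)) → w D ≠ 0 → B ≤ P.ord (w D))
    {D : Fin N → Derivation ℂ K K} (hD : ∀ c, DerReg P (D c)) (h0 : w D ≠ 0) :
    mow w P = P.ord lam + mow w' P := by
  have h1 : ∀ D, w D ≠ 0 ↔ w' D ≠ 0 := by
    intro D
    rw [hw]
    exact ⟨fun h2 h3 => h2 (by rw [h3, mul_zero]), fun h2 => mul_ne_zero hlam h2⟩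
  have h2 : ∀ D, w' D ≠ 0 → P.ord (w D) = P.ord lam + P.ord (w' D) := by
    intro D h3
    rw [hw, P.ord_mul hlam h3]
  have h3 : ∀ D, (∀ c, DerReg P (D c)) → w' D ≠ 0 → B - P.ord lam ≤ P.ord (w' D) := by
    intro D hD h4
    have h5 := h D hD ((h1 D).2 h4)
    rw [h2 D h4] at h5
    linarith
  apply le_antisymm
  · have h4 : mow w P - P.ord lam ≤ mow w' P := by
      refine le_csInf ⟨_, D, hD, (h1 D).1 h0, rfl⟩ ?_
      rintro k ⟨D', hD', h0', rfl⟩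
      have h5 := mow_le h hD' ((h1 D').2 h0')
      rw [h2 D' h0'] at h5
      linarith
    linarith
  · refine le_csInf ⟨_, D, hD, h0, rfl⟩ ?_
    rintro k ⟨D', hD', h0', rfl⟩
    have h5 := mow_le h3 hD' ((h1 D').1 h0')
    rw [h2 D' ((h1 D').1 h0')]
    linarith

end

variable {d p : ℕ} {Φ : Arr (d + 1)} {K : Type} [Field K] [Algebra ℂ K] {R : ℕ} (C : Cv Φ K R)

theorem bw_low {P : Place ℂ K} {α : ℤ} {v : Fin (d + 2) → ℕ} (h : Dat P Φ.F Φ.dF C.x α v)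
    (D : Fin (d + 1) → Derivation ℂ K K) (hD : ∀ c, DerReg P (D c)) (h0 : bw D C.x ≠ 0) :
    ((d : ℤ) + 2) * α + ∑ k, (v k : ℤ) - (if v = 0 then 0 else 1) ≤ P.ord (bw D C.x) := by
  have h1 := (bw_reg_ord Φ.hS Φ.hh h hD).resolve_left h0
  refine le_trans (le_of_eq ?_) h1
  push_cast
  ring

/-- the true coefficients of the boundary with the function `c` -/
def CoefTa (c : (Fin (d + 2) → ℕ) → ℚ) (δ : Place ℂ K → ℚ) : Prop :=
  ∀ P α v, Dat P Φ.F Φ.dF C.x α v → (∃ D, (∀ c, DerReg P (D c)) ∧ bw D C.x ≠ 0) →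
    δ P = (if v = 0 then 1 else c v) -
    ((mow (fun D => bw D C.x) P : ℚ) + 1 - ∑ k, (v k : ℚ) - ((d : ℚ) + 2) * α)

variable {C} in
/-- the true coefficients are at most the old ones -/
theorem CoefTa.le {c : (Fin (d + 2) → ℕ) → ℚ} {δ δ0 : Place ℂ K → ℚ}
    (ht : CoefTa C c δ) (h0 : Coef C c δ0) {P : Place ℂ K}
    {D : Fin (d + 1) → Derivation ℂ K K} (hD : ∀ c, DerReg P (D c)) (hbw : bw D C.x ≠ 0) :
    δ P ≤ δ0 P := by
  obtain ⟨α, v, hα, h⟩ := C.exists_dat P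
  rw [ht P α v h ⟨D, hD, hbw⟩, h0.hδ P α v h]
  have h1 := le_mow (w := fun D => bw D C.x) (bw_low C h) hD hbw
  have h2 : ((((d : ℤ) + 2) * α + ∑ k, (v k : ℤ) - (if v = 0 then 0 else 1) : ℤ) : ℚ) ≤
    ((mow (fun D => bw D C.x) P : ℤ) : ℚ) := by exact_mod_cast h1
  by_cases hv : v = 0
  · rw [if_pos hv] at h2 ⊢
    have h3 : c v = 0 := by
      rw [hv]
      exact h0.h0
    rw [h3]
    push_cast at h2
    linarith
  · rw [if_neg hv] at h2 ⊢
    push_cast at h2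
    linarith

variable {c : Fin p → (Fin (d + 2) → ℕ) → ℚ} {δ δ0 : Fin p → Place ℂ K → ℚ}

/-- sections with the true coefficients -/
theorem asec_ta {D0 : Fin (d + 1) → Derivation ℂ K K}
    (hD0 : ∀ i j, D0 i (C.u j) = if i = j then 1 else 0)
    (ht : ∀ i, CoefTa C (c i) (δ i))
    (hcf : ∀ i, Coef C (c i) (δ0 i)) {S : Finset K} {μ : Fin p →₀ ℕ} (hμ : μ ≠ 0) {j : ℕ}
    {η : (Fin (d + 1) → Derivation ℂ K K) → K} (hη : ASec (d + 1) δ S μ j η) :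
    ASec (d + 1) δ0 S μ j η := by
  refine ⟨hη.1, fun P hP D hD => ?_⟩
  by_cases h0 : η D = 0
  · exact Or.inl h0
  obtain ⟨s, hs, hs0, hle⟩ := (hη.2 P hP D hD).resolve_left h0
  refine Or.inr ⟨s, hs, hs0, ?_⟩
  have hbw : bw D C.x ≠ 0 := by
    intro h1
    have h2 := pluri_eq C hD0 hη.1 D
    have h3 := ne_zero_sum hμ
    rw [h1, zero_pow (by omega), zero_mul] at h2
    exact h0 h2
  have h1 : ∑ i, (μ i : ℚ) * δ i P ≤ ∑ i, (μ i : ℚ) * δ0 i P :=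
    Finset.sum_le_sum fun i _ => mul_le_mul_of_nonneg_left ((ht i).le (hcf i) hD hbw)
      (by positivity)
  linarith

/-- the sections of lattice points are sections with the true coefficients -/
theorem sG_ta (ht : ∀ i, CoefTa C (c i) (δ i)) {μ : Fin p →₀ ℕ} (hμ : μ ≠ 0)
    {a : Fin (d + 2) → ℤ}
    (hE : (Φ.E : ℤ) * ∑ k, a k = (∑ k, (Φ.dF k : ℤ) - (d + 2)) * ((∑ i, μ i : ℕ) : ℤ))
    (hadm : ∀ v, Pool.Agent.Y169.TH.Adm C.M C.a v → ∑ i, (μ i : ℚ) * (1 - c i v) ≤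
      ((∑ k, (Φ.ee k : ℤ) * v k * a k : ℤ) : ℚ)) :
    MSec (d + 1) δ μ (sG C (∑ i, μ i) a) := by
  obtain ⟨m, hm⟩ : ∃ m : ℕ, m = ∑ i, μ i := ⟨_, rfl⟩
  have hm0 : m ≠ 0 := by
    have := ne_zero_sum hμ
    omega
  refine ⟨?_, fun P _ D hD => ?_⟩
  · intro A D
    unfold sG
    rw [(bwa (d + 1) K).2.1 A D C.x, mul_pow]
    ring
  rw [← hm] at hE ⊢
  by_cases hbw : bw D C.x = 0
  · left
    unfold sG
    rw [hbw, zero_pow hm0, zero_mul]
  right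
  obtain ⟨α, v, hα, h⟩ := C.exists_dat P
  rw [ord_sG C h hbw hE]
  have h2 := mul_le_mul_of_nonneg_left (mow_le (w := fun D => bw D C.x) (bw_low C h) hD hbw)
    (show (0 : ℤ) ≤ m by positivity)
  have h2' := (Int.cast_le (R := ℚ)).2 h2
  have hsum : ∑ i, (μ i : ℚ) * δ i P = ∑ i, (μ i : ℚ) * (if v = 0 then 1 else c i v) -
      (m : ℚ) * ((mow (fun D => bw D C.x) P : ℚ) + 1 - ∑ k, (v k : ℚ) -
        ((d : ℚ) + 2) * α) := by
    rw [hm, Nat.cast_sum, Finset.sum_mul, ← Finset.sum_sub_distrib]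
    refine Finset.sum_congr rfl fun i _ => ?_
    rw [ht i P α v h ⟨D, hD, hbw⟩]
    ring
  have h4 : (m : ℚ) - ∑ i, (μ i : ℚ) * (if v = 0 then 1 else c i v) ≤
      ((∑ k, (Φ.ee k : ℤ) * v k * a k : ℤ) : ℚ) := by
    by_cases hv : v = 0
    · have h5 : ∀ i, (μ i : ℚ) * (if v = 0 then 1 else c i v) = μ i := by
        intro i
        rw [if_pos hv, mul_one]
      rw [Finset.sum_congr rfl fun i _ => h5 i, hm, hv]
      simp
    · simp only [if_neg hv]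
      refine le_trans (le_of_eq ?_) (hadm v (C.adm h hv))
      rw [hm]
      push_cast
      rw [← Finset.sum_sub_distrib]
      exact Finset.sum_congr rfl fun i _ => by ring
  rw [hsum]
  have h6 : ∑ k, ((Φ.dF k : ℤ) * α + v k) = α * ∑ k, (Φ.dF k : ℤ) + ∑ k, (v k : ℤ) := by
    rw [Finset.sum_add_distrib, Finset.mul_sum]
    congr 1
    exact Finset.sum_congr rfl fun k _ => by ring
  rw [h6]
  push_cast at h2' h4 ⊢
  have h7 : (m : ℚ) * ((mow (fun D => bw D C.x) P : ℚ) + 1 - ∑ k, (v k : ℚ) -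
      ((d : ℚ) + 2) * α) = m * (mow (fun D => bw D C.x) P : ℚ) + m - m * ∑ k, (v k : ℚ) -
      m * (((d : ℚ) + 2) * α) := by ring
  rw [h7]
  have h8 : (α : ℚ) * ((∑ k, (Φ.dF k : ℚ) - (d + 2)) * m) - m * (α * ∑ k, (Φ.dF k : ℚ) +
      ∑ k, (v k : ℚ)) = - (m * (((d : ℚ) + 2) * α)) - m * ∑ k, (v k : ℚ) := by ring
  linarith

end Pool.Agent.Q57.TC
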