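import Pool.Agent.Q57.TC.CvrB
import Pool.Agent.Q57.GE.Free

/-!
The coefficients of the pullbacks of log canonical divisors at all divisorial places, for covers of
products of projective spaces.
-/

set_option autoImplicit false
set_option linter.overlappingInstances false
set_option linter.unusedSectionVars false
set_option maxHeartbeats 1000000

open FF MvPolynomial Pool.Agent.W603.LV Pool.Agent.W602.GT Pool.Agent.W602.Cov
open Pool.Agent.TH756.PR Pool.Agent.TH122.AB Pool.Agent.TH756.PN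
open Pool.Agent.Y169.CH Pool.Agent.Y169.CH.Cvr Pool.Agent.Q57.TP Pool.Agent.Q57.TQ
open Pool.Agent.Q57.GM Pool.Agent.Q57.GH Pool.Agent.Q57.FG Pool.Agent.Q57.FH Pool.Agent.Q57.GG
open Pool.Agent.Q57.GE

namespace Pool.Agent.Q57.TC

/-- the minimal order of the canonical form on the regular vector fields -/
noncomputable def mo {r N : ℕ} {n : Fin r → ℕ} {K : Type} [Field K] [Algebra ℂ K]
    (e : ((i : Fin r) × Fin (n i)) ≃ Fin N) (x : ∀ i, Fin (n i + 1) → K) (P : Place ℂ K) : ℤ :=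
  sInf {k : ℤ | ∃ D : Fin N → Derivation ℂ K K, (∀ c, DerReg P (D c)) ∧ om e D x ≠ 0 ∧
    P.ord (om e D x) = k}

variable {r R N' p : ℕ} {n : Fin r → ℕ} {K : Type} [Field K] [Algebra ℂ K]
  {e : ((i : Fin r) × Fin (n i)) ≃ Fin (N' + 1)} {Φ : Blk ℂ (N' + 1) r} {C : Cvr Φ K R}
  {dF : Fin r → ℕ} {x : ∀ i, Fin (n i + 1) → K} {F : ∀ i, MvPolynomial (Fin (n i + 1)) ℂ}

theorem om_low (H : Mon e C dF x F) {P : Place ℂ K} {α : Fin r → ℤ} {l : ∀ i, Fin (n i + 1)}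
    {v : Fin r → ℕ} (h : DatH P dF x F α l v) {D : Fin (N' + 1) → Derivation ℂ K K}
    (hD : ∀ c, DerReg P (D c)) (h0 : om e D x ≠ 0) :
    ∑ i, ((n i : ℤ) + 1) * α i + ∑ i, (v i : ℤ) - (if v = 0 then 0 else 1) ≤
      P.ord (om e D x) :=
  (om_ord e H.hn P D hD H.hx (by rw [← H.hZ]; exact C.hZ) H.hs H.hh H.hFx α h.h1 l
      h.h2 v h.hv).resolve_left h0

theorem mo_bdd (H : Mon e C dF x F) (P : Place ℂ K) :
    BddBelow {k : ℤ | ∃ D : Fin (N' + 1) → Derivation ℂ K K, (∀ c, DerReg P (D c)) ∧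
      om e D x ≠ 0 ∧ P.ord (om e D x) = k} := by
  obtain ⟨α, l, v, h⟩ := H.exists_dat P
  refine ⟨∑ i, ((n i : ℤ) + 1) * α i + ∑ i, (v i : ℤ) - (if v = 0 then 0 else 1), ?_⟩
  rintro k ⟨D, hD, h0, rfl⟩
  exact om_low H h hD h0

theorem mo_le (H : Mon e C dF x F) {P : Place ℂ K} {D : Fin (N' + 1) → Derivation ℂ K K}
    (hD : ∀ c, DerReg P (D c)) (h0 : om e D x ≠ 0) : mo e x P ≤ P.ord (om e D x) :=
  csInf_le (mo_bdd H P) ⟨D, hD, h0, rfl⟩

theorem le_mo (H : Mon e C dF x F) {P : Place ℂ K} {α : Fin r → ℤ} {l : ∀ i, Fin (n i + 1)}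
    {v : Fin r → ℕ} (h : DatH P dF x F α l v) {D : Fin (N' + 1) → Derivation ℂ K K}
    (hD : ∀ c, DerReg P (D c)) (h0 : om e D x ≠ 0) :
    ∑ i, ((n i : ℤ) + 1) * α i + ∑ i, (v i : ℤ) - (if v = 0 then 0 else 1) ≤ mo e x P := by
  refine le_csInf ⟨_, D, hD, h0, rfl⟩ ?_
  rintro k ⟨D', hD', h0', rfl⟩
  exact om_low H h hD' h0'

theorem exists_mo (H : Mon e C dF x F) {P : Place ℂ K} {D : Fin (N' + 1) → Derivation ℂ K K}
    (hD : ∀ c, DerReg P (D c)) (h0 : om e D x ≠ 0) :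
    ∃ D' : Fin (N' + 1) → Derivation ℂ K K, (∀ c, DerReg P (D' c)) ∧ om e D' x ≠ 0 ∧
      P.ord (om e D' x) = mo e x P := by
  have h1 := Int.csInf_mem (s := {k : ℤ | ∃ D : Fin (N' + 1) → Derivation ℂ K K,
    (∀ c, DerReg P (D c)) ∧ om e D x ≠ 0 ∧ P.ord (om e D x) = k}) ⟨_, D, hD, h0, rfl⟩ (mo_bdd H P)
  exact h1

/-- the true coefficients of the boundary with the function `c` -/
def CoefTr (e : ((i : Fin r) × Fin (n i)) ≃ Fin (N' + 1)) (dF : Fin r → ℕ)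
    (x : ∀ i, Fin (n i + 1) → K) (F : ∀ i, MvPolynomial (Fin (n i + 1)) ℂ)
    (c : (Fin r → ℕ) → ℚ) (δ : Place ℂ K → ℚ) : Prop :=
  ∀ P α l v, DatH P dF x F α l v → δ P = (if v = 0 then 1 else c v) -
    ((mo e x P : ℚ) + 1 - ∑ i, (v i : ℚ) - ∑ i, ((n i : ℚ) + 1) * α i)

/-- the true coefficients are at most the old ones -/
theorem CoefTr.le (H : Mon e C dF x F) {c : (Fin r → ℕ) → ℚ} {δ δ0 : Place ℂ K → ℚ}
    (ht : CoefTr e dF x F c δ) (h0 : CoefH C c δ0) {P : Place ℂ K}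
    {D : Fin (N' + 1) → Derivation ℂ K K} (hD : ∀ c, DerReg P (D c)) (hom : om e D x ≠ 0) :
    δ P ≤ δ0 P := by
  obtain ⟨α, l, v, h⟩ := H.exists_dat P
  rw [ht P α l v h, h0.hδ P v (h.multH H)]
  have h1 := le_mo H h hD hom
  have h2 : ((∑ i, ((n i : ℤ) + 1) * α i + ∑ i, (v i : ℤ) - (if v = 0 then 0 else 1) : ℤ) : ℚ) ≤
    ((mo e x P : ℤ) : ℚ) := by exact_mod_cast h1
  by_cases hv : v = 0
  · rw [if_pos hv] at h2 ⊢
    have h3 : c v = 0 := by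
      rw [hv]
      exact h0.h0
    rw [h3]
    push_cast at h2
    linarith
  · rw [if_neg hv] at h2 ⊢
    push_cast at h2
    linarith

variable {c : Fin p → (Fin r → ℕ) → ℚ} {δ δ0 : Fin p → Place ℂ K → ℚ}

theorem sum_tr (ht : ∀ i, CoefTr e dF x F (c i) (δ i)) (μ : Fin p →₀ ℕ) {P : Place ℂ K}
    {α : Fin r → ℤ} {l : ∀ i, Fin (n i + 1)} {v : Fin r → ℕ} (h : DatH P dF x F α l v) :
    ∑ i, (μ i : ℚ) * δ i P = ∑ i, (μ i : ℚ) * (if v = 0 then 1 else c i v) -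
      ((∑ i, μ i : ℕ) : ℚ) *
        ((mo e x P : ℚ) + 1 - ∑ i, (v i : ℚ) - ∑ i, ((n i : ℚ) + 1) * α i) := by
  rw [Nat.cast_sum, Finset.sum_mul, ← Finset.sum_sub_distrib]
  refine Finset.sum_congr rfl fun i _ => ?_
  rw [ht i P α l v h]
  ring

/-- sections with the true coefficients -/
theorem asec_tr (H : Mon e C dF x F) {D0 : Fin (N' + 1) → Derivation ℂ K K}
    (hpl : ∀ (m : ℕ) (η : (Fin (N' + 1) → Derivation ℂ K K) → K), IsPluri m η →
      ∀ D, η D * (∏ i, x i 0 ^ (n i + 1)) ^ m = om e D x ^ m * η D0)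
    (ht : ∀ i, CoefTr e dF x F (c i) (δ i))
    (hcf : ∀ i, CoefH C (c i) (δ0 i)) {S : Finset K} {μ : Fin p →₀ ℕ} (hμ : μ ≠ 0) {j : ℕ}
    {η : (Fin (N' + 1) → Derivation ℂ K K) → K} (hη : ASec (N' + 1) δ S μ j η) :
    ASec (N' + 1) δ0 S μ j η := by
  refine ⟨hη.1, fun P hP D hD => ?_⟩
  by_cases h0 : η D = 0
  · exact Or.inl h0
  obtain ⟨s, hs, hs0, hle⟩ := (hη.2 P hP D hD).resolve_left h0
  refine Or.inr ⟨s, hs, hs0, ?_⟩
  have hx0 : ∏ i, x i 0 ^ (n i + 1) ≠ 0 :=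
    Finset.prod_ne_zero_iff.2 fun i _ => pow_ne_zero _ (H.hx i 0)
  have hom : om e D x ≠ 0 := by
    intro h1
    have h2 := hpl _ η hη.1 D
    have h3 : ∑ i, μ i ≠ 0 := by
      intro h4
      apply hμ
      ext i
      exact Finset.sum_eq_zero_iff.1 h4 i (Finset.mem_univ i)
    rw [h1, zero_pow h3, zero_mul] at h2
    exact mul_ne_zero h0 (pow_ne_zero _ hx0) h2
  have h1 : ∑ i, (μ i : ℚ) * δ i P ≤ ∑ i, (μ i : ℚ) * δ0 i P :=
    Finset.sum_le_sum fun i _ => mul_le_mul_of_nonneg_left ((ht i).le H (hcf i) hD hom)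
      (by positivity)
  linarith

/-- the sections of lattice points are sections with the true coefficients -/
theorem sH_tr (H : Mon e C dF x F) (ht : ∀ i, CoefTr e dF x F (c i) (δ i)) {μ : Fin p →₀ ℕ}
    (hμ : μ ≠ 0) {y : Fin r → ℤ}
    (hy : ∀ t, (dF t : ℤ) * y t ≤ ((dF t : ℤ) - n t - 1) * ((∑ i, μ i : ℕ) : ℤ))
    (hadm : ∀ v, Adm C.M C.a v → ∑ i, (μ i : ℚ) * (1 - c i v) ≤
      ((∑ k, (v k : ℤ) * y k : ℤ) : ℚ)) (l : ∀ i, Fin (n i + 1)) :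
    MSec (N' + 1) δ μ (sH e dF x F (∑ i, μ i) y l) := by
  obtain ⟨m, hm⟩ : ∃ m : ℕ, m = ∑ i, μ i := ⟨_, rfl⟩
  have hm0 : m ≠ 0 := by
    rw [hm]
    intro h4
    apply hμ
    ext i
    exact Finset.sum_eq_zero_iff.1 h4 i (Finset.mem_univ i)
  rw [← hm] at hy
  refine ⟨?_, fun P _ D hD => ?_⟩
  · intro A D
    unfold sH
    rw [om_lin, mul_pow]
    ring
  rw [← hm]
  by_cases hom : om e D x = 0
  · left
    unfold sH
    rw [hom, zero_pow hm0, zero_mul]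
  right
  obtain ⟨α, l', v, h⟩ := H.exists_dat P
  have h1 := sH_low H h hy l hom
  have h2 := mul_le_mul_of_nonneg_left (mo_le H hD hom) (show (0 : ℤ) ≤ m by positivity)
  have h3' : m * mo e x P - m * ∑ i, ((n i : ℤ) + 1) * α i + ∑ k, (v k : ℤ) * y k -
      m * ∑ i, (v i : ℤ) ≤ P.ord (sH e dF x F m y l D) := by linarith
  have h3 := (Int.cast_le (R := ℚ)).2 h3'
  rw [Int.cast_sub, Int.cast_add, Int.cast_sub] at h3
  rw [sum_tr ht μ h, ← hm]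
  have h4 : (m : ℚ) - ∑ i, (μ i : ℚ) * (if v = 0 then 1 else c i v) ≤
      ((∑ k, (v k : ℤ) * y k : ℤ) : ℚ) := by
    by_cases hv : v = 0
    · have h5 : ∀ i, (μ i : ℚ) * (if v = 0 then 1 else c i v) = μ i := by
        intro i
        rw [if_pos hv, mul_one]
      rw [Finset.sum_congr rfl fun i _ => h5 i, hm, hv]
      simp
    · simp only [if_neg hv]
      refine le_trans (le_of_eq ?_) (hadm v (h.adm H hv))
      rw [hm]
      push_cast
      rw [← Finset.sum_sub_distrib]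
      exact Finset.sum_congr rfl fun i _ => by ring
  push_cast at h3 h4 ⊢
  have h5 : (m : ℚ) * ((mo e x P : ℚ) + 1 - ∑ i, (v i : ℚ) - ∑ i, ((n i : ℚ) + 1) * α i) =
      m * (mo e x P : ℚ) + m - m * ∑ i, (v i : ℚ) - m * ∑ i, ((n i : ℚ) + 1) * α i := by ring
  rw [h5]
  linarith

end Pool.Agent.Q57.TC
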